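import Pool.Agent.Helper10.TWX.X14
import Pool.Agent.Helper10.TWT.E6

/-!
# Project TWX: the key statement from a core statement
-/

universe u v

namespace Pool.Agent.TWX

open Polynomial Pool.Agent.Helper37.UL UL Pool.Agent.OPN Pool.Agent.OPG Pool.Agent.BT Pool.Agent.TW
  Pool.Agent.TWT

/-- **The key statement holds for all properties which are decided at good places.** -/
theorem keyT_of_coreP {k₀ : Type u} [Field k₀]
    {P : ∀ (k' : Type u) [Field k'], (k₀ →+* k') → (Unit → k') → Prop}
    {M : Finset k₀[X]} {U₀ : Finset k₀} (hM : ∀ q ∈ M, q ≠ 0) (hU : 0 ∉ U₀)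
    (hcore : ∀ (F k : Type u) [Field F] [Field k] [Algebra F k] (ι : k₀ →+* k),
      (∃ S : Finset F, Subfield.closure (S : Set F) = ⊤) →
      ∀ t : k, FiniteDimensional (IntermediateField.adjoin F {t}) k →
      ∀ v : k, v ≠ 0 → ∀ W : ValuationSubring (AlgebraicClosure k),
      GoodPl (F := F) M U₀ ι v W → ¬ P k ι (fun _ => v)) : KeyT k₀ (I := Unit) P := by
  classical
  intro J F k C _ _ _ _ _ _ _ _ _ ι T q hT htop κ hκ Fs κs hκs Fv hFsv hFvF hFsF hq hι m w hw0 hw1 Uf
    S _ π h vv hvFv hx hwr Kb hKF hKT hKq hKv hFvK hKFv hmod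
  have hC0 : CharZero C := charZero_of_injective_algebraMap (algebraMap F C).injective
  have hCa : IsAlgClosed C := IsAlgClosure.isAlgClosed k
  have hCk : Algebra.IsAlgebraic k C := IsAlgClosure.isAlgebraic
  set TC : C := algebraMap k C T with hTC
  set qC : C := algebraMap k C q with hqC
  -- the field `κ`
  have hκF : ∀ c : F, algebraMap F C c ∈ κ := fun c => (hκ _).2 (isAlgebraic_algebraMap c)
  have hFκ : (algebraMap F C).fieldRange ≤ κ := by
    rintro _ ⟨c, rfl⟩
    exact hκF c
  let iFκ : Algebra F κ := ((algebraMap F C).codRestrict κ.toSubring hκF).toAlgebra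
  have sFκ : IsScalarTower F κ C := IsScalarTower.of_algebraMap_eq fun _ => rfl
  have hκalg : Algebra.IsAlgebraic F κ := ⟨fun z => by
    have h1 : IsAlgebraic F (algebraMap κ C z) := (hκ _).1 z.2
    exact (isAlgebraic_algebraMap_iff (algebraMap κ C).injective).1 h1⟩
  have hκ0 : CharZero κ := inferInstance
  have hκr : (algebraMap κ C).fieldRange = κ := by
    ext z
    constructor
    · rintro ⟨c, rfl⟩
      exact c.2
    · intro hz
      exact ⟨⟨z, hz⟩, rfl⟩
  have hκacl : IsAlgClosed κ := by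
    refine IsAlgClosed.of_exists_root κ fun p hpm hpi => ?_
    obtain ⟨z, hz⟩ := IsAlgClosed.exists_root (p.map (algebraMap κ C)) (by
      rw [degree_map]
      exact hpi.degree_pos.ne')
    rw [IsRoot.def, eval_map] at hz
    have hzκ : IsAlgebraic κ z := ⟨p, hpi.ne_zero, hz⟩
    have hzF : IsAlgebraic F z := hzκ.restrictScalars F
    refine ⟨⟨z, (hκ z).2 hzF⟩, ?_⟩
    apply (algebraMap κ C).injective
    rw [map_zero, ← hz]
    exact (eval₂_at_apply (algebraMap κ C) _).symm
  -- transcendence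
  have hTF : Transcendental F TC := (transcendental_algebraMap_iff (algebraMap k C).injective).2 hT
  have hTκ : Transcendental κ TC := fun h0 => hTF (h0.restrictScalars F)
  have hq' : IsAlgebraic (ad Fs {TC}) qC := by
    rw [← gen_one]
    exact hq
  have hFsκ : Fs ≤ (algebraMap κ C).fieldRange := by
    rw [hκr]
    exact hFsF.trans hFκ
  have halg : ∀ z : C, IsAlgebraic (IntermediateField.adjoin κ {TC}) z := by
    have h1 : ∀ x : k, algebraMap k C x ∈ acl (ad κ {TC}) := by
      intro x
      have h2 : (IntermediateField.adjoin F {T, q}).toSubfield ≤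
          (acl (ad κ {TC})).comap (algebraMap k C) := by
        rw [adjoin_sub]
        refine ad_le ?_ ?_
        · rintro _ ⟨c, rfl⟩
          change algebraMap k C (algebraMap F k c) ∈ acl (ad κ {TC})
          rw [← IsScalarTower.algebraMap_apply]
          exact le_acl (le_ad (hκF c))
        · rintro z (hz | hz)
          · rw [hz]
            exact le_acl mem_adE
          · rw [Set.mem_singleton_iff.1 hz]
            exact mem_acl.2 (isAlgebraic_mono (ad_mono (hFsF.trans hFκ) le_rfl) hq')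
      rw [htop] at h2
      exact h2 (Subfield.mem_top x)
    intro z
    have h3 : IsAlgebraic (acl (ad κ {TC})) z := by
      obtain ⟨P, hP0, hP⟩ := hCk.isAlgebraic z
      let φ : k →+* acl (ad κ {TC}) :=
        (algebraMap k C).codRestrict (acl (ad κ {TC})).toSubring h1
      refine ⟨P.map φ, (Polynomial.map_ne_zero_iff φ.injective).2 hP0, ?_⟩
      rw [aeval_def, eval₂_map]
      exact hP
    exact alg_adjoin_iff.2 (mem_acl.1 (acl_closed h3))
  -- the coefficients
  let σ : k₀ →+* C := (algebraMap k C).comp ι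
  have hσ : ∀ a, σ a ∈ ad Fs {TC, qC} := hι
  have hσ0 : σ (w 0) ≠ 0 := (map_ne_zero σ).2 hw0
  have hTqC : ad Fs {TC, qC} ≤ acl (ad Fs {TC}) := by
    rw [ad_pair]
    refine ad_le le_acl ?_
    intro z hz
    rw [Set.mem_singleton_iff.1 hz]
    exact mem_acl.2 hq'
  let u : Fin (m + 2) → C := fun e => σ (w e) / σ (w 0)
  have hu0 : u 0 = 1 := div_self hσ0
  have hu1 : u ((0 : Fin (m + 1)).succ) = TC := by
    change σ (w 1) / σ (w 0) = TC
    rw [div_eq_iff hσ0]
    change algebraMap k C (ι (w 1)) = _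
    rw [hw1, map_mul]
    rfl
  have hu : ∀ e, u e ∈ ad Fs {TC, qC} := fun e => (ad Fs {TC, qC}).div_mem (hσ _) (hσ _)
  let a : J → Fin (m + 2) → κ := fun j e => ⟨algebraMap F C (vv j ((), e)), hκF _⟩
  -- the generators
  have hxe : (xg π fun j e => algebraMap κ C (a j e)) =
      (xg π fun j i => algebraMap F C (vv j i)) ∘ (Equiv.punitProd (Fin (m + 2))).symm := rfl
  have hx' : AlgebraicIndependent (Fs.map (UP.cst π)) (xg π fun j e => algebraMap κ C (a j e)) := by
    rw [hxe]
    exact hx.comp _ (Equiv.injective _)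
  have hκsacl : κs = acl Fs := by
    ext z
    rw [hκs, mem_acl]
  have hwr' : ∀ z ∈ h.fsub Fv,
      IsAlgebraic (gn (Fs.map (UP.cst π)) (xg π fun j e => algebraMap κ C (a j e))) z →
      z ∈ gn ((acl Fs).map (UP.cst π)) (xg π fun j e => algebraMap κ C (a j e)) := by
    intro z hz hza
    rw [hxe, gn_comp] at hza ⊢
    rw [← hκsacl]
    exact hwr z hz hza
  -- the finite sets
  let B : Finset C := M.biUnion fun p => (p.map σ).roots.toFinset
  let U0 : Finset C := U₀.image σ ∪ {σ (w 0)}
  have hB : ∀ b ∈ B, b ∈ acl (ad Fs {TC}) := by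
    intro b hb
    obtain ⟨p, hp, hb⟩ := Finset.mem_biUnion.1 hb
    rw [Multiset.mem_toFinset, mem_roots', IsRoot.def, eval_map] at hb
    have h1 : IsAlgebraic (acl (ad Fs {TC})) b := by
      let σ' : k₀ →+* acl (ad Fs {TC}) :=
        σ.codRestrict (acl (ad Fs {TC})).toSubring fun x => hTqC (hσ x)
      refine ⟨p.map σ', (Polynomial.map_ne_zero_iff σ'.injective).2 (hM p hp), ?_⟩
      rw [aeval_def, eval₂_map]
      exact hb.2
    exact acl_closed h1
  have hU0 : ∀ z ∈ U0, z ∈ acl (ad Fs {TC}) ∧ z ≠ 0 := by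
    intro z hz
    rcases Finset.mem_union.1 hz with hz | hz
    · obtain ⟨x, hx, rfl⟩ := Finset.mem_image.1 hz
      refine ⟨hTqC (hσ x), (map_ne_zero σ).2 ?_⟩
      rintro rfl
      exact hU hx
    · rw [Finset.mem_singleton.1 hz]
      exact ⟨hTqC (hσ _), hσ0⟩
  obtain ⟨j, W, -, hWE, hWU, hv0, hvW, hWd, hWB⟩ := exists_good_place (E := κ) (A := Fs) (C := C)
    (T := TC) (q := qC) hFsκ hTκ halg hq' h (a := a) hx' (Fv := Fv) hFsv
    (fun j => by rw [hκr]; exact (hFvF j).trans hFκ) (fun j e => hvFv j ((), e)) hwr' (u := u) hu0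
    hu1 hu B U0 hB hU0
  · obtain ⟨k₁, k', i1, i2, i3, i4, T', ψ, ι', f', hk₁, hfin, hKb, hconst, hι', hf', hbad⟩ := hmod j
    have hψι : ψ.comp ((algebraMap k' (AlgebraicClosure k')).comp ι') = σ :=
      RingHom.ext fun x => (hι' x).symm
    have hsum : ψ (algebraMap k' (AlgebraicClosure k') (f' ())) =
        σ (w 0) * ∑ e, algebraMap κ C (a j e) * u e := by
      rw [← hf' ()]
      unfold PL.sysW
      rw [map_sum, Finset.mul_sum]
      refine Finset.sum_congr rfl fun e _ => ?_
      rw [map_mul, ← IsScalarTower.algebraMap_apply]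
      change algebraMap F C (vv j ((), e)) * σ (w e) =
        σ (w 0) * (algebraMap F C (vv j ((), e)) * (σ (w e) / σ (w 0)))
      field_simp
    have hW0 : W.valuation (σ (w 0)) = 1 :=
      hWU _ (Finset.mem_union_right _ (Finset.mem_singleton_self _))
    have hval : W.valuation (ψ (algebraMap k' (AlgebraicClosure k') (f' ()))) =
        W.valuation (∑ e, algebraMap κ C (a j e) * u e) := by
      rw [hsum, map_mul, hW0, one_mul]
    have hne : ψ (algebraMap k' (AlgebraicClosure k') (f' ())) ≠ 0 := by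
      rw [hsum]
      exact mul_ne_zero hσ0 hv0
    have hf0 : f' () ≠ 0 := by
      intro h0
      apply hne
      rw [h0, map_zero, map_zero]
    have hKeq : (Kb j).map (algebraMap k C) = ad (Fv j) {TC, qC} := by
      apply le_antisymm (hKFv j)
      refine ad_le (hFvK j) ?_
      rintro z (hz | hz)
      · rw [hz]
        exact ⟨T, hKT j, rfl⟩
      · rw [Set.mem_singleton_iff.1 hz]
        exact ⟨q, hKq j, rfl⟩
    have hk'K : ∀ z : k', ψ (algebraMap k' (AlgebraicClosure k') z) ∈ ad (Fv j) {TC, qC} := by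
      intro z
      rw [← hKeq, hKb]
      exact ⟨z, rfl⟩
    refine hcore k₁ k' ι' hk₁ T' hfin (f' ()) hf0 (W.comap ψ) (goodPl_of_place ψ (ι' := ι')
      (f' := f' ()) (W := W) ?_ ?_ ?_ hf0 ?_ ?_) hbad
    · intro c
      obtain ⟨b, hb⟩ := hconst c
      rw [← hb, ← IsScalarTower.algebraMap_apply]
      exact hWE ⟨_, hκF b⟩
    · intro x hx
      rw [← hι' x]
      exact hWU _ (Finset.mem_union_left _ (Finset.mem_image_of_mem σ hx))
    · rw [hval]
      exact hvW
    · intro z hz
      rw [hval]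
      refine hWd _ ?_ ?_
      · rw [hκr]
        exact ad_mono ((hFvF j).trans hFκ) le_rfl (hk'K z)
      · exact (map_ne_zero ψ).2 ((_root_.map_ne_zero _).2 hz)
    · intro p hp b hb hbk
      rw [hψι] at hb
      have hbB : b ∈ B := by
        refine Finset.mem_biUnion.2 ⟨p, hp, ?_⟩
        rw [Multiset.mem_toFinset, mem_roots', IsRoot.def, eval_map]
        exact ⟨(Polynomial.map_ne_zero_iff σ.injective).2 (hM p hp), hb⟩
      have hbn : b ∉ ad (Fv j) {TC, qC} := by
        intro h0
        rw [← hKeq, hKb] at h0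
        obtain ⟨c, hc⟩ := h0
        exact hbk c hc
      obtain ⟨γ, h1, h2, h3⟩ := hWB b hbB hbn
      exact ⟨γ, fun z => h1 _ (hk'K z), h2, h3⟩

end Pool.Agent.TWX
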