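import Pool.Agent.Helper10.TWX.X2

/-!
# Project TWX: the residues at the place
-/

universe u

set_option linter.unusedSectionVars false

namespace Pool.Agent.TWX

open VC Polynomial Pool.Agent.LT Pool.Agent.SC Pool.Agent.Helper91.Sect Pool.Agent Pool.Agent.GC
  Pool.Agent.TW Pool.Agent.TWU

/-- The residue field of the valuation ring `O ⊇ k` is an extension of `k` of degree `r`: it is generated by
the residue of one element, which is a root of an irreducible polynomial of degree `r`. -/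
def HasDeg (k : Type u) {K₁ : Type u} [Field k] [Field K₁] [Algebra k K₁] (O : ValuationSubring K₁)
    (r : ℕ) : Prop :=
  ∃ θ ∈ O, ∃ q : k[X], Irreducible q ∧ q.natDegree = r ∧ aeval θ q ∈ O.nonunits ∧
    ∀ z ∈ O, ∃ h : k[X], z - aeval θ h ∈ O.nonunits

/-- `δ = gcd(n, ord_O(g))`: the divisors of `δ` are the divisors `e` of `n` such that `g` has the value of an
`e`-th power. -/
def OrdGcd {K₁ : Type u} [Field K₁] (O : ValuationSubring K₁) (g : K₁) (n δ : ℕ) : Prop :=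
  ∀ e : ℕ, e ∣ δ ↔ e ∣ n ∧ ∃ x : K₁, O.valuation g = O.valuation (x ^ e)

/-- The data of a place of `K₀`. -/
structure PData {k₀ K₀ : Type u} [Field k₀] [Field K₀] [Algebra k₀ K₀] (g : K₀) (P₀ : Place k₀ K₀)
    (θ π : K₀) (q p : k₀[X]) : Prop where
  hθ : θ ∈ P₀.ring
  hq : Irreducible q
  hqθ : aeval θ q ∈ P₀.ring.nonunits
  hall : ∀ z ∈ P₀.ring, ∃ h : k₀[X], z - aeval θ h ∈ P₀.ring.nonunits
  hπ0 : π ≠ 0
  hπ1 : ord P₀.ring π = 1
  hp : p.Monic
  hp0 : p.coeff 0 ≠ 0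
  hpε : aeval (g * π ^ (-ord P₀.ring g)) p ∈ P₀.ring.nonunits

theorem exists_pdata {k₀ K₀ : Type u} [Field k₀] [CharZero k₀] [Field K₀] [Algebra k₀ K₀]
    (hF₀ : IsFunctionField k₀ K₀) (P₀ : Place k₀ K₀) {g : K₀} (hg : g ≠ 0) :
    ∃ (θ π : K₀) (q p : k₀[X]), PData g P₀ θ π q p := by
  classical
  obtain ⟨θ, hθ, q, hq, hqθ, hall⟩ := Pool.Agent.TWT.exists_theta_all hF₀ P₀
  obtain ⟨π, hπ0, hπ1⟩ := exists_unif hF₀ P₀
  set m := ord P₀.ring g with hm
  set ε : K₀ := g * π ^ (-m) with hε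
  have hε0 : ε ≠ 0 := mul_ne_zero hg (zpow_ne_zero _ hπ0)
  have hεord : ord P₀.ring ε = 0 := by
    rw [hε, ord_mul' hF₀ P₀ hg (zpow_ne_zero _ hπ0), ord_zpow' hF₀ P₀ hπ0, hπ1]
    omega
  have hεP : ε ∈ P₀.ring := (mem_iff_ord hF₀ P₀ hε0).2 hεord.ge
  have hεn : ε ∉ P₀.ring.nonunits := fun h => by
    have h1 := (nonunit_iff_ord hF₀ P₀ hε0).1 h
    omega
  obtain ⟨p₁, hp₁, hp₁ε⟩ := res_alg hF₀ P₀ hεP
  obtain ⟨p₂, hp₂⟩ : X ^ p₁.natTrailingDegree ∣ p₁ :=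
    X_pow_dvd_iff.2 fun i hi => coeff_eq_zero_of_lt_natTrailingDegree hi
  have hp₂0 : p₂.coeff 0 ≠ 0 := by
    have h1 : p₁.coeff p₁.natTrailingDegree ≠ 0 := trailingCoeff_nonzero_iff_nonzero.2 hp₁
    have h2 : p₁.coeff p₁.natTrailingDegree = p₂.coeff 0 := by
      have h3 := coeff_X_pow_mul p₂ p₁.natTrailingDegree 0
      rwa [zero_add, ← hp₂] at h3
    rwa [h2] at h1
  have hp₂ne : p₂ ≠ 0 := by
    rintro rfl
    exact hp₂0 (coeff_zero 0)
  have hp₂ε : aeval ε p₂ ∈ P₀.ring.nonunits := by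
    rw [hp₂, map_mul, map_pow, aeval_X] at hp₁ε
    have hv : P₀.ring.valuation ε = 1 := by
      refine le_antisymm ((P₀.ring.valuation_le_one_iff _).2 hεP) ?_
      rw [ValuationSubring.mem_nonunits_iff, not_lt] at hεn
      exact hεn
    rw [ValuationSubring.mem_nonunits_iff, map_mul, map_pow, hv, one_pow, one_mul] at hp₁ε
    exact (ValuationSubring.mem_nonunits_iff _).2 hp₁ε
  have hlc : p₂.leadingCoeff⁻¹ ≠ 0 := inv_ne_zero (leadingCoeff_ne_zero.2 hp₂ne)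
  refine ⟨θ, π, q, p₂ * C p₂.leadingCoeff⁻¹, hθ, hq, hqθ, hall, hπ0, hπ1,
    monic_mul_leadingCoeff_inv hp₂ne, ?_, ?_⟩
  · rw [coeff_mul_C]
    exact mul_ne_zero hp₂0 hlc
  · rw [map_mul, aeval_C]
    exact nonunit_mul hp₂ε (P₀.algebraMap_mem _)

/-- An equality of values in terms of the order function. -/
theorem ordGcd_iff {k K₀ : Type u} [Field k] [CharZero k] [Field K₀] [Algebra k K₀]
    (hK₀ : IsFunctionField k K₀) {g : K₀} (hg : g ≠ 0) {n : ℕ} (hn : 0 < n) (O : VC.Place k K₀) :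
    OrdGcd O.ring g n (Int.gcd n (ord O.ring g)) := by
  intro e
  constructor
  · intro he
    have h1 : (e : ℤ) ∣ (n : ℤ) := (Int.natCast_dvd_natCast.2 he).trans (Int.gcd_dvd_left ..)
    have h2 : (e : ℤ) ∣ ord O.ring g := (Int.natCast_dvd_natCast.2 he).trans (Int.gcd_dvd_right ..)
    refine ⟨Int.natCast_dvd_natCast.1 h1, ?_⟩
    obtain ⟨m, hm⟩ := h2
    obtain ⟨π, hπ0, hπ1⟩ := exists_unif hK₀ O
    refine ⟨π ^ m, ?_⟩
    have hx : (π ^ m) ^ e ≠ 0 := pow_ne_zero _ (zpow_ne_zero _ hπ0)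
    have ho : ord O.ring ((π ^ m) ^ e) = ord O.ring g := by
      rw [ord_pow' hK₀ O (zpow_ne_zero _ hπ0), ord_zpow' hK₀ O hπ0, hπ1, hm]
      ring
    have h3 : g / (π ^ m) ^ e ∈ O.ring := by
      rw [mem_iff_ord hK₀ O (div_ne_zero hg hx), div_eq_mul_inv, ord_mul' hK₀ O hg (inv_ne_zero hx),
        ord_inv' hK₀ O hx, ho]
      omega
    have h4 : (π ^ m) ^ e / g ∈ O.ring := by
      rw [mem_iff_ord hK₀ O (div_ne_zero hx hg), div_eq_mul_inv, ord_mul' hK₀ O hx (inv_ne_zero hg),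
        ord_inv' hK₀ O hg, ho]
      omega
    rw [← O.ring.valuation_le_one_iff, map_div₀] at h3 h4
    have hvg : O.ring.valuation g ≠ 0 := (Valuation.ne_zero_iff _).2 hg
    have hvx : O.ring.valuation ((π ^ m) ^ e) ≠ 0 := (Valuation.ne_zero_iff _).2 hx
    exact le_antisymm ((div_le_one₀ (zero_lt_iff.2 hvx)).1 h3)
      ((div_le_one₀ (zero_lt_iff.2 hvg)).1 h4)
  · rintro ⟨hen, x, hx⟩
    have he : 0 < e := Nat.pos_of_dvd_of_pos hen hn
    have hx0 : x ≠ 0 := by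
      rintro rfl
      rw [zero_pow he.ne', map_zero] at hx
      exact hg ((map_eq_zero O.ring.valuation).1 hx)
    have hxe : x ^ e ≠ 0 := pow_ne_zero _ hx0
    have hvg : O.ring.valuation g ≠ 0 := (Valuation.ne_zero_iff _).2 hg
    have hvx : O.ring.valuation (x ^ e) ≠ 0 := (Valuation.ne_zero_iff _).2 hxe
    have h3 : g / x ^ e ∈ O.ring := by
      rw [← O.ring.valuation_le_one_iff, map_div₀, hx, div_self hvx]
    have h4 : x ^ e / g ∈ O.ring := by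
      rw [← O.ring.valuation_le_one_iff, map_div₀, hx, div_self hvx]
    rw [mem_iff_ord hK₀ O (div_ne_zero hg hxe), div_eq_mul_inv, ord_mul' hK₀ O hg (inv_ne_zero hxe),
      ord_inv' hK₀ O hxe, ord_pow' hK₀ O hx0] at h3
    rw [mem_iff_ord hK₀ O (div_ne_zero hxe hg), div_eq_mul_inv, ord_mul' hK₀ O hxe (inv_ne_zero hg),
      ord_inv' hK₀ O hg, ord_pow' hK₀ O hx0] at h4
    have h5 : ord O.ring g = e * ord O.ring x := by omega
    exact Int.natCast_dvd_natCast.1 (Int.dvd_coe_gcd (Int.natCast_dvd_natCast.2 hen) ⟨_, h5⟩)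

end Pool.Agent.TWX
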