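import Pool.Agent.Helper10.TWX.X15

/-!
# Project TWX: the thin set
-/

universe u

set_option linter.unusedSectionVars false

namespace Pool.Agent.TWX

open VC Polynomial Pool.Agent.LT Pool.Agent.SC Pool.Agent.Helper91.Sect Pool.Agent Pool.Agent.GC
  Pool.Agent.TW Pool.Agent.TWU Pool.Agent.TWT

/-- Some twist has a section over a field of a wrong degree. -/
def BadDeg {k₀ K₀ : Type u} [Field k₀] [Field K₀] [Algebra k₀ K₀] (g : K₀) (k' : Type u)
    [Field k'] (ι : k₀ →+* k') (f : Unit → k') : Prop :=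
  ∃ (K₁ : Type u) (_ : Field K₁) (_ : Algebra k' K₁) (τ : K₀ →+* K₁),
    (∀ c : k₀, τ (algebraMap k₀ K₀ c) = algebraMap k' K₁ (ι c)) ∧
    IntermediateField.adjoin k' (Set.range τ) = ⊤ ∧
    (∃ y : K₀, Transcendental k' (τ y)) ∧ ¬ DegTwist (τ g) (f ())

/-- **The key statement for the degrees.** -/
theorem keyT_deg {k₀ K₀ : Type u} [Field k₀] [CharZero k₀] [Field K₀] [Algebra k₀ K₀]
    (hK₀ : IsFunctionField k₀ K₀) {g : K₀} (hg : g ≠ 0) :
    KeyT k₀ (I := Unit) (BadDeg g) := by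
  obtain ⟨M, U₀, hM, hU, hcore⟩ := exists_core hK₀ hg
  refine keyT_of_coreP hM hU ?_
  intro F k _ _ _ ι hF t hfin v hv0 W hW hbad
  obtain ⟨K₁, _, _, τ, hτ, hgen, htr, hno⟩ := hbad
  apply hno
  let i1 : Algebra k₀ k := ι.toAlgebra
  let i2 : Algebra K₀ K₁ := τ.toAlgebra
  let i3 : Algebra k₀ K₁ := (τ.comp (algebraMap k₀ K₀)).toAlgebra
  have s1 : IsScalarTower k₀ k K₁ := IsScalarTower.of_algebraMap_eq hτ
  have s2 : IsScalarTower k₀ K₀ K₁ := IsScalarTower.of_algebraMap_eq fun _ => rfl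
  exact hcore F k K₁ hF t hfin hgen htr v hv0 W hW

/-- **The degrees of the fields over which the twists have sections, outside a thin set**, one thin set for all
fields of constants. -/
theorem degs_thinU {F₀ k₀ K₀ : Type u} [Field F₀] [CharZero F₀] [Field k₀] [Algebra F₀ k₀]
    [Field K₀] [Algebra k₀ K₀]
    (hk₀ : ∃ S : Finset k₀, Subfield.closure (S : Set k₀) = ⊤) {m : ℕ} {w : Fin (m + 1) → k₀}
    {i l : Fin (m + 1)} (hw : Transcendental F₀ (w i / w l))
    (hK₀ : IsFunctionField k₀ K₀) {g : K₀} (hg : g ≠ 0) :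
    ∃ Φ : Polynomial (MvPolynomial (Fin (m + 1)) F₀), UT.NoRoot Φ ∧
      ∀ (F k K₁ : Type u) [Field F] [Field k] [Field K₁] [Algebra F₀ F] [Algebra F k] [Algebra k₀ k]
        [Algebra F₀ k] [IsScalarTower F₀ F k] [IsScalarTower F₀ k₀ k] [Algebra k K₁] [Algebra K₀ K₁]
        [Algebra k₀ K₁] [IsScalarTower k₀ k K₁] [IsScalarTower k₀ K₀ K₁],
        (∃ S : Finset F, Subfield.closure (S : Set F) = ⊤) →
        IntermediateField.adjoin F (Set.range (algebraMap k₀ k)) = ⊤ →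
        (∀ {n : ℕ} {x : Fin n → k₀}, AlgebraicIndependent F₀ x →
          AlgebraicIndependent F (algebraMap k₀ k ∘ x)) →
        IntermediateField.adjoin k (Set.range (algebraMap K₀ K₁)) = ⊤ →
        (∃ y : K₀, Transcendental k (algebraMap K₀ K₁ y)) →
        ∀ a : Fin (m + 1) → F, (∀ x : F, Polynomial.eval₂ (UT.aeR a) x Φ ≠ 0) →
          DegTwist (algebraMap K₀ K₁ g)
            (∑ e, algebraMap F k (a e) * algebraMap k₀ k (w e)) := by
  have hk₀0 : CharZero k₀ := charZero_of_injective_algebraMap (algebraMap F₀ k₀).injective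
  obtain ⟨Φ, hΦ, h1⟩ := thin_of_keyT (keyT_deg hK₀ hg) hk₀ (w := w) hw
  refine ⟨_, hΦ.rename (Equiv.punitProd (Fin (m + 1))), ?_⟩
  intro F k K₁ _ _ _ _ _ _ _ _ _ _ _ _ _ _ hF hgenk hfree hgenK htr a ha
  by_contra hcon
  obtain ⟨x, hx⟩ := h1 F k hF hgenk (fun hx => hfree hx) (fun p => a p.2) ⟨K₁, inferInstance,
    inferInstance, algebraMap K₀ K₁, fun c => by
      rw [← IsScalarTower.algebraMap_apply, IsScalarTower.algebraMap_apply k₀ k K₁], hgenK, htr,
      hcon⟩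
  apply ha x
  rw [Polynomial.eval₂_map, ← hx]
  congr 1
  refine RingHom.ext fun p => ?_
  change MvPolynomial.aeval a (MvPolynomial.rename _ p) = MvPolynomial.aeval _ p
  rw [MvPolynomial.aeval_rename]
  rfl

end Pool.Agent.TWX
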