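import Pool.Agent.Helper10.TWX.X13
import Pool.Agent.Helper10.TWT.Fin2

/-!
# Project TWX: the core statement and the key statement
-/

universe u v

set_option linter.unusedSectionVars false

namespace Pool.Agent.TWX

open VC Polynomial Pool.Agent.LT Pool.Agent.SC Pool.Agent.Helper91.Sect Pool.Agent Pool.Agent.GC
  Pool.Agent.TW Pool.Agent.TWU Pool.Agent.Helper37.UL UL Pool.Agent.OPN Pool.Agent.OPG Pool.Agent.BT
  Pool.Agent.TWT

/-- A good place for `v`. -/
structure GoodPl {k₀ F k : Type u} [Field k₀] [Field F] [Field k] [Algebra F k] (M : Finset k₀[X])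
    (U₀ : Finset k₀) (ι : k₀ →+* k) (v : k) (W : ValuationSubring (AlgebraicClosure k)) : Prop where
  const : ∀ c : F, algebraMap k (AlgebraicClosure k) (algebraMap F k c) ∈ W
  unit : ∀ u ∈ U₀, W.valuation (algebraMap k (AlgebraicClosure k) (ι u)) = 1
  v_mem : algebraMap k (AlgebraicClosure k) v ∈ W.nonunits
  disc : ∀ z : k, z ≠ 0 → ∃ i : ℤ, W.valuation (algebraMap k (AlgebraicClosure k) z) =
    W.valuation (algebraMap k (AlgebraicClosure k) v) ^ i
  move : ∀ q ∈ M, ∀ b : AlgebraicClosure k,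
    eval₂ ((algebraMap k (AlgebraicClosure k)).comp ι) b q = 0 →
    (∀ c : k, algebraMap k (AlgebraicClosure k) c ≠ b) →
    ∃ γ : AlgebraicClosure k ≃ₐ[k] AlgebraicClosure k, InDecomp W γ ∧ γ b ≠ b

/-- **The core statement.** -/
theorem exists_core {k₀ K₀ : Type u} [Field k₀] [CharZero k₀] [Field K₀] [Algebra k₀ K₀]
    (hK₀ : IsFunctionField k₀ K₀) {g : K₀} (hg : g ≠ 0) :
    ∃ (M : Finset k₀[X]) (U₀ : Finset k₀), (∀ q ∈ M, q ≠ 0) ∧ 0 ∉ U₀ ∧
      ∀ (F k K₁ : Type u) [Field F] [Field k] [Field K₁] [Algebra F k] [Algebra k₀ k] [Algebra k K₁]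
        [Algebra K₀ K₁] [Algebra k₀ K₁] [IsScalarTower k₀ k K₁] [IsScalarTower k₀ K₀ K₁],
        (∃ S : Finset F, Subfield.closure (S : Set F) = ⊤) →
        ∀ t : k, FiniteDimensional (IntermediateField.adjoin F {t}) k →
        IntermediateField.adjoin k (Set.range (algebraMap K₀ K₁)) = ⊤ →
        (∃ y : K₀, Transcendental k (algebraMap K₀ K₁ y)) →
        ∀ v : k, v ≠ 0 → ∀ W : ValuationSubring (AlgebraicClosure k),
        GoodPl (F := F) M U₀ (algebraMap k₀ k) v W → DegTwist (algebraMap K₀ K₁ g) v := by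
  classical
  obtain ⟨x, z₀, f, S, hx, hgen, hdeg, hsep, hgood⟩ := exists_goodPoly hK₀ hg
  have hc : Coord g x z₀ f S := ⟨hg, hK₀, hx, hgen, hdeg, hsep, hgood⟩
  have htx : Transcendental k₀ x⁻¹ := fun h => hx (by rw [← inv_inv x]; exact h.inv)
  have htf : Transcendental k₀ (aeval x f) := hx.aeval f (by omega)
    (mem_nonZeroDivisors_of_ne_zero
      (leadingCoeff_ne_zero.2 (ne_zero_of_natDegree_gt (n := 0) (by omega))))
  let OO : Set (Place k₀ K₀) := {O | x⁻¹ ∈ O.ring.nonunits} ∪ {O | aeval x f ∈ O.ring.nonunits}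
  have hOO : OO.Finite := (finite_zeros hK₀ htx).union (finite_zeros hK₀ htf)
  choose θf πf qf pf hd using fun P₀ : Place k₀ K₀ => exists_pdata hK₀ P₀ hg
  choose Ef hEf using fun P₀ : Place k₀ K₀ => exists_ctrl (hd P₀).hq
  obtain ⟨M₁, hM₁, hfull⟩ := exists_full (hOO.toFinset.image qf) (fun q hq => by
    obtain ⟨O, -, rfl⟩ := Finset.mem_image.1 hq
    exact (hd O).hq.ne_zero)
  let cf : k₀[X] → Finset k₀ := fun p => (Finset.range (p.natDegree + 1)).image p.coeff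
  have hcf : ∀ (p : k₀[X]) (i : ℕ), p.coeff i ≠ 0 → p.coeff i ∈ cf p := by
    intro p i hi
    refine Finset.mem_image_of_mem _ (Finset.mem_range.2 ?_)
    have := le_natDegree_of_ne_zero hi
    omega
  let U : Finset k₀ := (goodElts f 1 ∪ S) ∪ (hOO.toFinset.biUnion Ef ∪
    (hOO.toFinset.biUnion (fun O => cf (pf O)) ∪ hOO.toFinset.image fun O => ((pf O).coeff 0)⁻¹))
  refine ⟨M₁, U.erase 0, hM₁, fun h => (Finset.mem_erase.1 h).1 rfl, ?_⟩
  intro F k K₁ _ _ _ _ _ _ _ _ _ _ hF t hfin hgenK htr v hv0 W hW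
  have hk0 : CharZero k := charZero_of_injective_algebraMap (algebraMap k₀ k).injective
  have hF0 : CharZero F := by
    refine ⟨fun m n hmn => ?_⟩
    have h1 := congrArg (algebraMap F k) hmn
    rw [map_natCast, map_natCast] at h1
    exact Nat.cast_injective h1
  have hxk : Transcendental k (algebraMap K₀ K₁ x) := transc_map hK₀ hx htr
  have hc1 : Coord (algebraMap K₀ K₁ g) (algebraMap K₀ K₁ x) (algebraMap K₀ K₁ z₀)
      (f.map (algebraMap k₀ k)) (S.image (algebraMap k₀ k)) := coord_map hc hgenK hxk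
  have hmem : ∀ a ∈ U, algebraMap k (AlgebraicClosure k) (algebraMap k₀ k a) ∈ W := by
    intro a ha
    by_cases h0 : a = 0
    · rw [h0, map_zero, map_zero]
      exact W.zero_mem
    · exact (W.valuation_le_one_iff _).1 (hW.unit a (Finset.mem_erase.2 ⟨h0, ha⟩)).le
  have hO : ∀ P₀ : Place k₀ K₀, (x⁻¹ ∈ P₀.ring.nonunits ∨ aeval x f ∈ P₀.ring.nonunits) →
      P₀ ∈ hOO.toFinset := by
    intro P₀ h
    rw [Set.Finite.mem_toFinset]
    exact h
  refine deg_place hc hd (C := AlgebraicClosure k) hF hfin hc1.ff hgenK hxk hv0 hW.const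
    (fun a ha => hmem a (Finset.mem_union_left _ ha)) ?_ hW.v_mem hW.disc ?_ ?_
  · intro P₀ hP₀
    have h1 := hO P₀ hP₀
    refine ⟨fun i => ?_, ?_⟩
    · by_cases hi : (pf P₀).coeff i = 0
      · rw [hi, map_zero, map_zero]
        exact W.zero_mem
      · refine hmem _ (Finset.mem_union_right _ (Finset.mem_union_right _ (Finset.mem_union_left _ ?_)))
        exact Finset.mem_biUnion.2 ⟨P₀, h1, hcf _ i hi⟩
    · refine hmem _ (Finset.mem_union_right _ (Finset.mem_union_right _ (Finset.mem_union_right _ ?_)))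
      exact Finset.mem_image_of_mem (fun O => ((pf O).coeff 0)⁻¹) h1
  · intro P₀ hP₀ c hcq σ hσ
    exact hEf P₀ k (AlgebraicClosure k) W (fun a ha => hmem a (Finset.mem_union_right _
      (Finset.mem_union_left _ (Finset.mem_biUnion.2 ⟨P₀, hO P₀ hP₀, ha⟩)))) c hcq σ hσ
  · intro P₀ hP₀ c hcq σ
    have hae : ∀ (b : AlgebraicClosure k) (q : k₀[X]), aeval b q =
        eval₂ ((algebraMap k (AlgebraicClosure k)).comp (algebraMap k₀ k)) b q := by
      intro b q
      rw [aeval_def, IsScalarTower.algebraMap_eq k₀ k (AlgebraicClosure k)]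
    obtain ⟨γ, hγ, h1⟩ := hfull k (AlgebraicClosure k) (decG k W) (fun q hq b hb hbk => by
      rw [hae] at hb
      obtain ⟨γ, hγ, h2⟩ := hW.move q hq b hb hbk
      exact ⟨γ, hγ, h2⟩) σ
    refine ⟨γ, hγ, h1 (qf P₀) (Finset.mem_image_of_mem _ (hO P₀ hP₀)) c ?_⟩
    rw [hae]
    exact hcq

/-- good places from places of larger fields -/
theorem goodPl_of_place {k₀ : Type u} [Field k₀] {M : Finset k₀[X]} {U₀ : Finset k₀} {C : Type u}
    [Field C] {k₁ k' : Type u} [Field k₁] [Field k'] [Algebra k₁ k']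
    (ψ : AlgebraicClosure k' →+* C) {ι' : k₀ →+* k'} {f' : k'} {W : ValuationSubring C}
    (hW1 : ∀ c : k₁, ψ (algebraMap k' (AlgebraicClosure k') (algebraMap k₁ k' c)) ∈ W)
    (hW2 : ∀ u ∈ U₀, W.valuation (ψ (algebraMap k' (AlgebraicClosure k') (ι' u))) = 1)
    (hW3 : W.valuation (ψ (algebraMap k' (AlgebraicClosure k') f')) < 1) (hf : f' ≠ 0)
    (hW4 : ∀ z : k', z ≠ 0 → ∃ i : ℤ, W.valuation (ψ (algebraMap k' (AlgebraicClosure k') z)) =
      W.valuation (ψ (algebraMap k' (AlgebraicClosure k') f')) ^ i)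
    (hW5 : ∀ q ∈ M, ∀ b : C, eval₂ (ψ.comp ((algebraMap k' (AlgebraicClosure k')).comp ι')) b q = 0 →
      (∀ c : k', ψ (algebraMap k' (AlgebraicClosure k') c) ≠ b) →
      ∃ γ : C ≃+* C, (∀ z : k', γ (ψ (algebraMap k' (AlgebraicClosure k') z)) =
        ψ (algebraMap k' (AlgebraicClosure k') z)) ∧ (∀ z, γ z ∈ W ↔ z ∈ W) ∧ γ b ≠ b) :
    GoodPl (F := k₁) M U₀ ι' f' (W.comap ψ) := by
  have hf0 : algebraMap k' (AlgebraicClosure k') f' ≠ 0 := (_root_.map_ne_zero _).2 hf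
  refine ⟨hW1, ?_, ?_, ?_, ?_⟩
  · intro u hu
    rw [comap_eq_one]
    exact hW2 u hu
  · rw [ValuationSubring.mem_nonunits_iff, comap_lt_one]
    exact hW3
  · intro z hz
    obtain ⟨i, hi⟩ := hW4 z hz
    refine ⟨i, ?_⟩
    rw [← map_zpow₀, comap_eq _ _ (zpow_ne_zero i hf0), map_zpow₀, map_zpow₀]
    exact hi
  · intro q hq ρ hρ hρk
    have h0 : eval₂ (ψ.comp ((algebraMap k' (AlgebraicClosure k')).comp ι')) (ψ ρ) q = 0 := by
      have h1 := congrArg ψ hρ
      rw [map_zero, hom_eval₂] at h1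
      exact h1
    have h1 : ∀ c : k', ψ (algebraMap k' (AlgebraicClosure k') c) ≠ ψ ρ := by
      intro c hc
      exact hρk c (ψ.injective hc)
    obtain ⟨γ, hγ1, hγ2, hγ3⟩ := hW5 q hq _ h0 h1
    obtain ⟨γ', hγ'⟩ := GS.exists_restr (k' := k') ψ (γ : C →+* C) hγ1
    have hγ'' : ∀ y, ψ (γ' y) = γ (ψ y) := hγ'
    refine ⟨γ', ?_, ?_⟩
    · intro z
      change ψ (γ' z) ∈ W ↔ ψ z ∈ W
      rw [hγ'']
      exact hγ2 _
    · intro h2
      apply hγ3
      rw [← hγ'', h2]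

end Pool.Agent.TWX
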