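import Pool.Agent.Helper10.TWX.X9

/-!
# Project TWX: inertia fixes the branch points
-/

universe u

set_option linter.unusedSectionVars false

namespace Pool.Agent.TWX

open Polynomial Pool.Agent.SC

theorem lifts_W {C : Type*} [Field C] {W : ValuationSubring C} {Q : C[X]} (h : ∀ i, Q.coeff i ∈ W) :
    ∃ P : W[X], P.map (algebraMap W C) = Q := by
  have h1 : Q ∈ lifts (algebraMap W C) := by
    rw [lifts_iff_coeff_lifts]
    exact fun i => ⟨⟨Q.coeff i, h i⟩, rfl⟩
  exact (mem_lifts _).1 h1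

/-- **Distinct roots are not congruent.** -/
theorem root_unique {C : Type*} [Field C] {W : ValuationSubring C} {Q A B : C[X]}
    (hm : Q.Monic) (hQ : ∀ i, Q.coeff i ∈ W) (hA : ∀ i, A.coeff i ∈ W) (hB : ∀ i, B.coeff i ∈ W)
    (hab : A * Q + B * derivative Q = 1) {c c' : C} (hc : Q.eval c = 0) (hc' : Q.eval c' = 0)
    (hcc : c' - c ∈ W.nonunits) : c' = c := by
  obtain ⟨Q₁, hQ₁⟩ := lifts_W hQ
  obtain ⟨A₁, hA₁⟩ := lifts_W hA
  obtain ⟨B₁, hB₁⟩ := lifts_W hB
  have hinj : Function.Injective (algebraMap W C) := Subtype.val_injective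
  have hm₁ : Q₁.Monic := by
    rw [Monic, ← hinj.eq_iff, map_one, ← leadingCoeff_map_of_injective hinj, hQ₁]
    exact hm
  have hmem : ∀ z : C, Q.eval z = 0 → z ∈ W := by
    intro z hz
    have h1 : IsIntegral W z := ⟨Q₁, hm₁, by rw [← eval_map, hQ₁, hz]⟩
    obtain ⟨w, hw⟩ := IsIntegrallyClosed.algebraMap_eq_of_integral h1
    rw [← hw]
    exact w.2
  have hab₁ : A₁ * Q₁ + B₁ * derivative Q₁ = 1 := by
    apply map_injective _ hinj
    rw [Polynomial.map_add, Polynomial.map_mul, Polynomial.map_mul, ← derivative_map, hQ₁, hA₁, hB₁,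
      hab, Polynomial.map_one]
  set x : W := ⟨c, hmem c hc⟩ with hx
  set x' : W := ⟨c', hmem c' hc'⟩ with hx'
  have ev : ∀ (z : W), Q.eval (z : C) = 0 → Q₁.eval z = 0 := by
    intro z hz
    apply hinj
    rw [map_zero, ← hz, ← hQ₁, eval_map]
    exact (eval₂_at_apply (algebraMap W C) z).symm
  have h1 : Q₁.eval x = 0 := ev x hc
  have h2 : Q₁.eval x' = 0 := ev x' hc'
  set h : W := x' - x with hh
  have hx'' : x' = x + h := by rw [hh]; ring
  obtain ⟨κ, hκ⟩ := binomExpansion Q₁ x h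
  rw [← hx'', h1, h2] at hκ
  have hu : B₁.eval x * (derivative Q₁).eval x = 1 := by
    have h3 := congrArg (eval x) hab₁
    rw [eval_add, eval_mul, eval_mul, h1, mul_zero, zero_add, eval_one] at h3
    exact h3
  have hhm : h ∈ IsLocalRing.maximalIdeal W := by
    have h3 := (ValuationSubring.mem_nonunits_iff_exists_mem_maximalIdeal).1 hcc
    obtain ⟨h4, h5⟩ := h3
    exact h5
  have h3 : h * ((derivative Q₁).eval x + κ * h) = 0 := by
    have h4 : (0 : W) = 0 + (derivative Q₁).eval x * h + κ * h ^ 2 := hκ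
    rw [zero_add] at h4
    rw [h4]
    ring
  rcases mul_eq_zero.1 h3 with h4 | h4
  · have h5 := congrArg (Subtype.val : W → C) h4
    have h6 : c' - c = 0 := h5
    exact sub_eq_zero.1 h6
  · exfalso
    have h5 : (derivative Q₁).eval x ∈ IsLocalRing.maximalIdeal W := by
      have h6 : (derivative Q₁).eval x = -(κ * h) := by linear_combination h4
      rw [h6]
      exact neg_mem (Ideal.mul_mem_left _ _ hhm)
    have h6 : (1 : W) ∈ IsLocalRing.maximalIdeal W := by
      rw [← hu]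
      exact Ideal.mul_mem_left _ _ h5
    exact (Ideal.ne_top_iff_one _).1 (IsLocalRing.maximalIdeal.isMaximal W).ne_top h6

/-- The elements which control the reduction of the roots of `q`. -/
theorem exists_ctrl {k₀ : Type u} [Field k₀] [CharZero k₀] {q : k₀[X]} (hq : Irreducible q) :
    ∃ E : Finset k₀, ∀ (k C : Type u) [Field k] [Field C] [Algebra k C] [Algebra k₀ k]
      (W : ValuationSubring C), (∀ a ∈ E, algebraMap k C (algebraMap k₀ k a) ∈ W) →
      ∀ c : C, eval₂ ((algebraMap k C).comp (algebraMap k₀ k)) c q = 0 →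
      ∀ σ : C ≃ₐ[k] C, InInert W σ → σ c = c := by
  classical
  set q₁ : k₀[X] := q * C q.leadingCoeff⁻¹ with hq₁
  have hlc : q.leadingCoeff⁻¹ ≠ 0 := inv_ne_zero (leadingCoeff_ne_zero.2 hq.ne_zero)
  have hm : q₁.Monic := monic_mul_leadingCoeff_inv hq.ne_zero
  have hsep : q₁.Separable := by
    have h1 : Irreducible q₁ := by
      refine (Associated.irreducible_iff ⟨(isUnit_C.2 (isUnit_iff_ne_zero.2 hlc)).unit, ?_⟩).1 hq
      rfl
    exact h1.separable
  obtain ⟨A, B, hAB⟩ := hsep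
  let cf : k₀[X] → Finset k₀ := fun p => (Finset.range (p.natDegree + 1)).image p.coeff
  have hcf : ∀ (p : k₀[X]) (i : ℕ), p.coeff i ≠ 0 → p.coeff i ∈ cf p := by
    intro p i hi
    refine Finset.mem_image_of_mem _ (Finset.mem_range.2 ?_)
    have := le_natDegree_of_ne_zero hi
    omega
  refine ⟨cf q₁ ∪ (cf A ∪ cf B), ?_⟩
  intro k C _ _ _ _ W hW c hc σ hσ
  let ψ : k₀ →+* C := (algebraMap k C).comp (algebraMap k₀ k)
  have hmem : ∀ p : k₀[X], (∀ a ∈ cf p, ψ a ∈ W) → ∀ i, (p.map ψ).coeff i ∈ W := by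
    intro p hp i
    rw [coeff_map]
    by_cases hi : p.coeff i = 0
    · rw [hi, map_zero]
      exact W.zero_mem
    · exact hp _ (hcf p i hi)
  have h1 := hmem q₁ fun a ha => hW a (Finset.mem_union_left _ ha)
  have h2 := hmem A fun a ha => hW a (Finset.mem_union_right _ (Finset.mem_union_left _ ha))
  have h3 := hmem B fun a ha => hW a (Finset.mem_union_right _ (Finset.mem_union_right _ ha))
  have hc1 : (q₁.map ψ).eval c = 0 := by
    rw [eval_map, hq₁, eval₂_mul, hc, zero_mul]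
  have hc2 : (q₁.map ψ).eval (σ c) = 0 := by
    have h4 := congrArg σ hc1
    rw [map_zero, eval_map] at h4
    have h5 : σ (eval₂ ψ c q₁) = eval₂ ((σ : C →+* C).comp ψ) (σ c) q₁ := hom_eval₂ q₁ ψ (σ : C →+* C) c
    rw [h5] at h4
    have h6 : (σ : C →+* C).comp ψ = ψ := RingHom.ext fun a => σ.commutes _
    rw [h6] at h4
    rw [eval_map, h4]
  have hab : A.map ψ * q₁.map ψ + B.map ψ * derivative (q₁.map ψ) = 1 := by
    rw [derivative_map, ← Polynomial.map_mul, ← Polynomial.map_mul, ← Polynomial.map_add, hAB,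
      Polynomial.map_one]
  refine root_unique (hm.map ψ) h1 h2 h3 hab hc1 hc2 (hσ.2 c ?_)
  obtain ⟨Q₁, hQ₁⟩ := lifts_W h1
  have hinj : Function.Injective (algebraMap W C) := Subtype.val_injective
  have hm₁ : Q₁.Monic := by
    rw [Monic, ← hinj.eq_iff, map_one, ← leadingCoeff_map_of_injective hinj, hQ₁]
    exact hm.map ψ
  have h7 : IsIntegral W c := ⟨Q₁, hm₁, by rw [← eval_map, hQ₁, hc1]⟩
  obtain ⟨w, hw⟩ := IsIntegrallyClosed.algebraMap_eq_of_integral h7
  rw [← hw]
  exact w.2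

end Pool.Agent.TWX
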