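import Pool.Agent.Helper10.TWX.X6
import Pool.Agent.Helper10.TWX.X10
import Pool.Agent.Helper13.TW.Fin

/-!
# Project TWX: the index of the stabilizer of an embedding
-/

universe u

set_option linter.unusedSectionVars false

namespace Pool.Agent.TWX

open VC Polynomial Pool.Agent.LT Pool.Agent.SC Pool.Agent.Helper91.Sect Pool.Agent Pool.Agent.GC
  Pool.Agent.TW Pool.Agent.TWU MulAction Pool.Agent.Helper37.UL UL

/-- The degrees of the special points: `n / gcd(n, j)`, and `[κ(O) : k] δ / gcd(δ, j)` for the places `O` of the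
curve, `δ = gcd(n, ord_O(g))`. -/
def PtDeg (k : Type u) {K₁ : Type u} [Field k] [Field K₁] [Algebra k K₁] (g : K₁) (n j d : ℕ) : Prop :=
  d = n / Nat.gcd n j ∨ ∃ (O : ValuationSubring K₁) (r δ : ℕ), O ≠ ⊤ ∧
    (∀ c : k, algebraMap k K₁ c ∈ O) ∧ HasDeg k O r ∧ OrdGcd O g n δ ∧ d = r * (δ / Nat.gcd δ j)

theorem div_gcd_dvd {n j m : ℕ} (hn : 0 < n) (h : n ∣ j * m) : n / Nat.gcd n j ∣ m := by
  obtain ⟨n', hn'⟩ := Nat.gcd_dvd_left n j
  obtain ⟨j', hj'⟩ := Nat.gcd_dvd_right n j
  have hg : 0 < Nat.gcd n j := Nat.gcd_pos_of_pos_left _ hn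
  have hcop := Nat.coprime_div_gcd_div_gcd hg
  have h1 : n / Nat.gcd n j ∣ (j / Nat.gcd n j) * m := by
    obtain ⟨t, ht⟩ := h
    refine ⟨t, ?_⟩
    have h2 : Nat.gcd n j * ((j / Nat.gcd n j) * m) = Nat.gcd n j * ((n / Nat.gcd n j) * t) := by
      rw [← mul_assoc, Nat.mul_div_cancel' (Nat.gcd_dvd_right n j), ← mul_assoc,
        Nat.mul_div_cancel' (Nat.gcd_dvd_left n j), ht]
    exact Nat.eq_of_mul_eq_mul_left hg h2
  exact hcop.dvd_of_dvd_mul_left h1

/-- **The index of the stabilizer of an embedding.** -/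
theorem deg_section {k₀ K₀ : Type u} [Field k₀] [CharZero k₀] [DecidableEq k₀] [Field K₀]
    [Algebra k₀ K₀] {g x z₀ : K₀} {f : k₀[X]} {S : Finset k₀} (hc : Coord g x z₀ f S)
    {θf πf : Place k₀ K₀ → K₀} {qf pf : Place k₀ K₀ → k₀[X]}
    (hd : ∀ P₀ : Place k₀ K₀, PData g P₀ (θf P₀) (πf P₀) (qf P₀) (pf P₀))
    {F k K₁ C : Type u} [Field F] [CharZero F] [Field k] [Field K₁] [Field C]
    [Algebra k₀ k] [Algebra k K₁] [Algebra K₀ K₁] [Algebra k₀ K₁]
    [IsScalarTower k₀ k K₁] [IsScalarTower k₀ K₀ K₁]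
    [Algebra k C] [IsAlgClosed C] [Algebra.IsAlgebraic k C] [Algebra F k]
    (hF : ∃ S : Finset F, Subfield.closure (S : Set F) = ⊤)
    {t : k} (hfin : FiniteDimensional (IntermediateField.adjoin F {t}) k)
    (hF₁ : IsFunctionField k K₁)
    (hgen₁ : IntermediateField.adjoin k (Set.range (algebraMap K₀ K₁)) = ⊤)
    {v : k} (hv0 : v ≠ 0) {W : ValuationSubring C}
    (hFW : ∀ c : F, algebraMap k C (algebraMap F k c) ∈ W)
    (hmemU : ∀ a ∈ goodElts f 1 ∪ S, algebraMap k C (algebraMap k₀ k a) ∈ W)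
    (hmemp : ∀ P₀ : Place k₀ K₀, (x⁻¹ ∈ P₀.ring.nonunits ∨ aeval x f ∈ P₀.ring.nonunits) →
      (∀ i, algebraMap k C (algebraMap k₀ k ((pf P₀).coeff i)) ∈ W) ∧
        algebraMap k C (algebraMap k₀ k ((pf P₀).coeff 0)⁻¹) ∈ W)
    (hvW : algebraMap k C v ∈ W.nonunits)
    (hdisc : ∀ z : k, z ≠ 0 → ∃ i : ℤ, W.valuation (algebraMap k C z) =
        W.valuation (algebraMap k C v) ^ i)
    (hinert : ∀ P₀ : Place k₀ K₀, (x⁻¹ ∈ P₀.ring.nonunits ∨ aeval x f ∈ P₀.ring.nonunits) →
      ∀ c : C, eval₂ ((algebraMap k C).comp (algebraMap k₀ k)) c (qf P₀) = 0 →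
      ∀ σ : C ≃ₐ[k] C, InInert W σ → σ c = c)
    (hfull : ∀ P₀ : Place k₀ K₀, (x⁻¹ ∈ P₀.ring.nonunits ∨ aeval x f ∈ P₀.ring.nonunits) →
      ∀ c : C, eval₂ ((algebraMap k C).comp (algebraMap k₀ k)) c (qf P₀) = 0 →
      ∀ σ : C ≃ₐ[k] C, ∃ γ ∈ decG k W, γ c = σ c)
    {n j : ℕ} (hn : 0 < n)
    {k' L K : Type u} [Field k'] [Field L] [Field K] [Algebra k k'] [FiniteDimensional k k']
    [Algebra k' L] [Algebra K₀ L]
    (hL : ∀ a : k₀, algebraMap K₀ L (algebraMap k₀ K₀ a) =
      algebraMap k' L (algebraMap k k' (algebraMap k₀ k a)))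
    [Algebra k' K] [Algebra L K] [IsScalarTower k' L K]
    [Algebra K₁ K] [Algebra k K] [IsScalarTower k K₁ K] [IsScalarTower k k' K]
    (hKL : ∀ z : K₀, algebraMap L K (algebraMap K₀ L z) = algebraMap K₁ K (algebraMap K₀ K₁ z))
    (hgenL : IntermediateField.adjoin k' (Set.range (algebraMap K₀ L)) = ⊤)
    (htrL : Transcendental k' (algebraMap K₀ L x)) {y : K}
    (hgen : IntermediateField.adjoin L {y} = ⊤)
    (heq : algebraMap k K (v ^ j) * y ^ n = algebraMap K₁ K (algebraMap K₀ K₁ g))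
    (hrat : ∀ z : MM k' K, IntermediateField.adjoin (kbar k' K) {z} ≠ ⊤)
    (s : GaloisSection k' K) (τ : Emb k k' C) :
    ∃ d ∈ {d | PtDeg k (algebraMap K₀ K₁ g) n j d}, d ∣ (stabilizer (decG k W) τ).index := by
  classical
  have hk0 : CharZero k := charZero_of_injective_algebraMap (algebraMap k₀ k).injective
  have hclok : IsAlgClosure k C := ⟨inferInstance, inferInstance⟩
  have hnork : Normal k C := IsAlgClosure.normal k C
  have hgalk : IsGalois k C := ⟨⟩
  -- algebra structures
  let i1 : Algebra k' C := (show k' →ₐ[k] C from τ).toRingHom.toAlgebra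
  have hτ : ∀ a : k', algebraMap k' C a = (show k' →ₐ[k] C from τ) a := fun _ => rfl
  have s1 : IsScalarTower k k' C := IsScalarTower.of_algebraMap_eq fun a =>
    ((show k' →ₐ[k] C from τ).commutes a).symm
  have hkC : ∀ a : k, algebraMap k' C (algebraMap k k' a) = algebraMap k C a := fun a =>
    (IsScalarTower.algebraMap_apply k k' C a).symm
  have hclo' : IsAlgClosure k' C :=
    ⟨inferInstance, Algebra.IsAlgebraic.tower_top (K := k) k'⟩
  let i2 : Algebra F k' := ((algebraMap k k').comp (algebraMap F k)).toAlgebra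
  let i3 : Algebra k₀ k' := ((algebraMap k k').comp (algebraMap k₀ k)).toAlgebra
  have s3 : IsScalarTower k₀ k k' := IsScalarTower.of_algebraMap_eq fun _ => rfl
  let i4 : Algebra k₀ L := ((algebraMap k' L).comp (algebraMap k₀ k')).toAlgebra
  have s4 : IsScalarTower k₀ k' L := IsScalarTower.of_algebraMap_eq fun _ => rfl
  have s5 : IsScalarTower k₀ K₀ L := IsScalarTower.of_algebraMap_eq fun a => (hL a).symm
  let i5 : Algebra F C := ((algebraMap k C).comp (algebraMap F k)).toAlgebra
  have hFC : ∀ c : F, algebraMap F C c ∈ W := hFW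
  -- the uniformizer
  obtain ⟨ϖ, hϖ0, hϖW, hdisc', e', he'⟩ := exists_unif_ext (k := k) (k' := k') (C := C) (W := W)
    (v := v) (by rw [hkC]; exact hvW) hv0 (fun z hz => by
      rw [hkC, hkC]
      exact hdisc z hz)
  rw [hkC] at he'
  have hvv1 : W.valuation (algebraMap k C v) < 1 := (ValuationSubring.mem_nonunits_iff _).1 hvW
  have hvv0 : W.valuation (algebraMap k C v) ≠ 0 :=
    (Valuation.ne_zero_iff _).2 ((_root_.map_ne_zero _).2 hv0)
  have hϖv1 : W.valuation (algebraMap k' C ϖ) < 1 := (ValuationSubring.mem_nonunits_iff _).1 hϖW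
  have hϖC : algebraMap k' C ϖ ≠ 0 := (_root_.map_ne_zero _).2 hϖ0
  have hϖv0 : W.valuation (algebraMap k' C ϖ) ≠ 0 := (Valuation.ne_zero_iff _).2 hϖC
  have hcomm : ∀ σ : C ≃ₐ[k] C, σ • τ = τ → ∀ a : k', σ (algebraMap k' C a) = algebraMap k' C a := by
    intro σ hσ a
    have h1 := congrArg (fun φ : Emb k k' C => (show k' →ₐ[k] C from φ) a) hσ
    exact h1
  by_cases hdiv : n ∣ e' * j
  · -- the ramification index is divisible
    refine ⟨n / Nat.gcd n j, Or.inl rfl, ?_⟩
    have h1 : n / Nat.gcd n j ∣ e' := by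
      rw [mul_comm] at hdiv
      exact div_gcd_dvd hn hdiv
    refine h1.trans ?_
    refine Dvd.dvd.trans ?_ (index_dvd (decG k W) (x := τ) (y := algebraMap k' C ϖ)
      fun σ _ hσ => hcomm σ hσ ϖ)
    obtain ⟨i, hi⟩ := val_pow_index (F := F) hFC hvW hv0 hdisc (H := decG k W) (fun σ hσ => hσ)
      (fun σ hσ => hσ.1) hϖC
    rw [he', ← zpow_natCast, ← zpow_natCast, ← zpow_mul] at hi
    have h2 := zpow_val_ne_one hϖv0 hϖv1 hi
    exact Int.natCast_dvd_natCast.1 ⟨i, h2⟩
  · -- the place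
    let e : C ≃ₐ[k'] kbar k' K := IsAlgClosure.equiv k' C (kbar k' K)
    let W' : ValuationSubring (kbar k' K) := W.comap (e.symm : kbar k' K →+* C)
    have hek : ∀ z : k', (e.symm : kbar k' K →+* C) (algebraMap k' (kbar k' K) z) =
      algebraMap k' C z := fun z => e.symm.commutes z
    have hek2 : ∀ z : k', e.symm (algebraMap k' (kbar k' K) z) = algebraMap k' C z :=
      fun z => e.symm.commutes z
    have hmem : ∀ z, z ∈ W' ↔ e.symm z ∈ W := fun _ => Iff.rfl
    have hFf : ∀ c : F, algebraMap F k' c = algebraMap k k' (algebraMap F k c) := fun _ => rfl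
    have hk0f : ∀ c : k₀, algebraMap k₀ k' c = algebraMap k k' (algebraMap k₀ k c) := fun _ => rfl
    have hfin' : FiniteDimensional (IntermediateField.adjoin F {algebraMap k k' t}) k' := by
      let φ : k →ₐ[F] k' := { algebraMap k k' with commutes' := fun _ => rfl }
      have h1 : (IntermediateField.adjoin F {t}).map φ =
          IntermediateField.adjoin F {algebraMap k k' t} := by
        rw [IntermediateField.adjoin_map, Set.image_singleton]
        rfl
      have h2 : FiniteDimensional (IntermediateField.adjoin F {t}) k' :=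
        FiniteDimensional.trans (IntermediateField.adjoin F {t}) k k'
      have h3 : ∀ a : IntermediateField.adjoin F {t}, algebraMap k k' (a : k) ∈
          IntermediateField.adjoin F {algebraMap k k' t} := by
        intro a
        rw [← h1]
        exact ⟨a, a.2, rfl⟩
      let j2 : Algebra (IntermediateField.adjoin F {t})
          (IntermediateField.adjoin F {algebraMap k k' t}) :=
        (((algebraMap k k').comp (algebraMap (IntermediateField.adjoin F {t}) k)).codRestrict
          (IntermediateField.adjoin F {algebraMap k k' t}).toSubring h3).toAlgebra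
      have t2 : IsScalarTower (IntermediateField.adjoin F {t})
          (IntermediateField.adjoin F {algebraMap k k' t}) k' :=
        IsScalarTower.of_algebraMap_eq fun _ => rfl
      exact FiniteDimensional.right (IntermediateField.adjoin F {t})
        (IntermediateField.adjoin F {algebraMap k k' t}) k'
    have hk' : ∃ S : Finset k', Subfield.closure (S : Set k') = ⊤ :=
      fg_of_finite hF (T := algebraMap k k' t)
    obtain ⟨P₀, hbad, O, r, δ, c', ρ', hO1, hO2, hr, hdeg, hgcd, hrc, hqc, hρ, hfix⟩ :=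
      local_place hc hd (F := F) (k := k) (K₁ := K₁) (k' := k') (L := L) (K := K) hKL hF hk' hfin'
      hF₁ hgen₁ hgenL htrL hv0 (ϖ := ϖ) (e := e') (n := n) (j := j) hn hdiv hgen heq hrat (W := W')
      (by
        intro h
        have h1 : (algebraMap k' (kbar k' K) ϖ)⁻¹ ∈ W' := by rw [h]; trivial
        rw [hmem, map_inv₀, hek2] at h1
        rcases (ValuationSubring.mem_nonunits_iff_or _).1 hϖW with h2 | h2
        · exact hϖC h2
        · exact h2 h1)
      (by
        intro c
        rw [hmem, hek2, hFf, hkC]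
        exact hFW c)
      (by
        intro a ha
        rw [hmem, hek2, hk0f, hkC]
        exact hmemU a ha)
      (by
        intro P₀ hP₀
        obtain ⟨h1, h2⟩ := hmemp P₀ hP₀
        refine ⟨fun i => ?_, ?_⟩
        · rw [hmem, hek2, hk0f, hkC]
          exact h1 i
        · rw [hmem, hek2, hk0f, hkC]
          exact h2)
      (by
        rw [nonunits_comap_iff, hek]
        exact hϖW) hϖ0
      (by
        intro z hz
        obtain ⟨i, hi⟩ := hdisc' z hz
        refine ⟨i, ?_⟩
        have hϖ' : algebraMap k' (kbar k' K) ϖ ≠ 0 := (_root_.map_ne_zero _).2 hϖ0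
        rw [← map_zpow₀, comap_eq _ _ (zpow_ne_zero i hϖ'), map_zpow₀, map_zpow₀, hek, hek]
        exact hi)
      (by
        have hϖ' : algebraMap k' (kbar k' K) ϖ ≠ 0 := (_root_.map_ne_zero _).2 hϖ0
        rw [← map_pow, comap_eq _ _ (pow_ne_zero _ hϖ'), map_pow, map_pow, hek, hek, hkC]
        exact he') s
    refine ⟨r.natDegree * (δ / Nat.gcd δ j), Or.inr ⟨O, r.natDegree, δ, hO1, hO2, hdeg, hgcd, rfl⟩, ?_⟩
    set c : C := e.symm c' with hcdef
    set ρ : C := e.symm ρ' with hρdef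
    -- invariance
    have hinv : ∀ σ ∈ decG k W, σ • τ = τ → σ • c = c ∧ σ • ρ = ρ := by
      intro σ hσ hστ
      let σ' : C ≃ₐ[k'] C := AlgEquiv.ofRingEquiv (f := σ.toRingEquiv) (fun a => hcomm σ hστ a)
      have hσ' : ∀ z, σ' z = σ z := fun _ => rfl
      obtain ⟨h1, h2⟩ := hfix ((e.symm.trans σ').trans e) (by
        intro z
        rw [hmem, hmem]
        change e.symm (e (σ' (e.symm z))) ∈ W ↔ _
        rw [AlgEquiv.symm_apply_apply, hσ']
        exact hσ _)
      have h3 : ∀ z : kbar k' K, ((e.symm.trans σ').trans e) z = z → σ (e.symm z) = e.symm z := by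
        intro z hz
        have h4 := congrArg e.symm hz
        change e.symm (e (σ' (e.symm z))) = _ at h4
        rw [AlgEquiv.symm_apply_apply, hσ'] at h4
        exact h4
      exact ⟨h3 _ h1, h3 _ h2⟩
    refine Dvd.dvd.trans ?_ (index_pair_dvd (decG k W) (x := τ) (c := c) (ρ := ρ) hinv)
    have hcr : aeval c r = 0 := by
      have h1 := congrArg e.symm hrc
      rw [map_zero] at h1
      have h2 : e.symm (eval₂ ((algebraMap k' (kbar k' K)).comp (algebraMap k k')) c' r) =
          eval₂ ((e.symm : kbar k' K →+* C).comp ((algebraMap k' (kbar k' K)).comp (algebraMap k k')))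
            c r := hom_eval₂ r _ (e.symm : kbar k' K →+* C) c'
      rw [h2] at h1
      rw [aeval_def, ← h1]
      congr 1
      refine RingHom.ext fun a => ?_
      change algebraMap k C a = e.symm (algebraMap k' (kbar k' K) (algebraMap k k' a))
      rw [hek2, hkC]
    have hcq : eval₂ ((algebraMap k C).comp (algebraMap k₀ k)) c (qf P₀) = 0 := by
      have h1 := congrArg e.symm hqc
      rw [map_zero] at h1
      have h2 : e.symm (eval₂ ((algebraMap k' (kbar k' K)).comp (algebraMap k₀ k')) c' (qf P₀)) =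
          eval₂ ((e.symm : kbar k' K →+* C).comp ((algebraMap k' (kbar k' K)).comp (algebraMap k₀ k')))
            c (qf P₀) := hom_eval₂ (qf P₀) _ (e.symm : kbar k' K →+* C) c'
      rw [h2] at h1
      rw [← h1]
      congr 1
      refine RingHom.ext fun a => ?_
      change algebraMap k C (algebraMap k₀ k a) = e.symm (algebraMap k' (kbar k' K) (algebraMap k₀ k' a))
      rw [hek2, hk0f, hkC]
    have hidx := index_stabilizer_root (D := decG k W) hr hcr (hfull P₀ hbad c hcq)
    rw [hidx]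
    refine Nat.mul_dvd_mul_left _ ?_
    -- the root `ρ`
    have hρv : W.valuation (ρ ^ δ * algebraMap k C v ^ j) = 1 := by
      have h1 := hρ
      rw [comap_eq_one] at h1
      have h2 : (e.symm : kbar k' K →+* C) (ρ' ^ δ *
          algebraMap k' (kbar k' K) (algebraMap k k' v) ^ j) = ρ ^ δ * algebraMap k C v ^ j := by
        rw [map_mul, map_pow, map_pow, hek, hkC]
        rfl
      rw [h2] at h1
      exact h1
    have hδ : 0 < δ := by
      rcases Nat.eq_zero_or_pos δ with h | h
      · exfalso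
        have h1 := (hgcd 0).1 (by rw [h])
        exact hn.ne' (Nat.eq_zero_of_zero_dvd h1.1)
      · exact h
    have hρ0 : ρ ≠ 0 := by
      rintro h0
      rw [h0, zero_pow hδ.ne', zero_mul, map_zero] at hρv
      exact zero_ne_one hρv
    obtain ⟨i, hi⟩ := val_pow_index (F := F) hFC hvW hv0 hdisc
      (H := decG k W ⊓ stabilizer (C ≃ₐ[k] C) c) (fun σ hσ => hσ.1)
      (fun σ hσ => ⟨hσ.1, hinert P₀ hbad c hcq σ hσ⟩) hρ0
    set m := (stabilizer (decG k W ⊓ stabilizer (C ≃ₐ[k] C) c : Subgroup (C ≃ₐ[k] C)) ρ).index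
      with hm
    set ω := W.valuation (algebraMap k C v) with hω
    have hρv' : W.valuation ρ ^ δ * ω ^ j = 1 := by
      rw [map_mul, map_pow, map_pow] at hρv
      exact hρv
    have h1 : ω ^ (i * δ + j * m) = ω ^ (0 : ℤ) := by
      rw [zpow_zero, zpow_add₀ hvv0, zpow_mul, ← hi, zpow_natCast, ← pow_mul, mul_comm m δ, pow_mul,
        zpow_mul, zpow_natCast, zpow_natCast, ← mul_pow, hρv', one_pow]
    have h2 := zpow_val_ne_one hvv0 hvv1 h1
    apply div_gcd_dvd hδ
    have h3 : (δ : ℤ) ∣ ((j * m : ℕ) : ℤ) := by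
      refine ⟨-i, ?_⟩
      push_cast
      linarith
    exact Int.natCast_dvd_natCast.1 h3

end Pool.Agent.TWX
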