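import Pool.Agent.Helper10.TWX.X12
import Pool.Agent.Helper10.TWX.X11
import Pool.Agent.Helper13.TW.Push

/-!
# Project TWX: the sections of a twist over all finite extensions of the ground field
-/

universe u

set_option linter.unusedSectionVars false

namespace Pool.Agent.TWX

open VC Polynomial Pool.Agent.LT Pool.Agent.SC Pool.Agent.Helper91.Sect Pool.Agent Pool.Agent.GC
  Pool.Agent.TW Pool.Agent.TWU MulAction Pool.Agent.Helper37.UL UL

/-- If a curve over a finite extension `k'` of `k` which maps onto the twist `v ^ j yⁿ = g` has a Galois section,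
then the degree of `k'` is a sum of degrees of special points. -/
def DegTwist {k K₁ : Type u} [Field k] [Field K₁] [Algebra k K₁] (g : K₁) (v : k) : Prop :=
  ∀ n j : ℕ, 0 < n →
    ∀ (k' K : Type u) [Field k'] [Algebra k k'] [FiniteDimensional k k'] [Field K] [Algebra k' K]
      [Algebra k K] [IsScalarTower k k' K] [Algebra K₁ K] [IsScalarTower k K₁ K] (y : K),
    algebraMap k K (v ^ j) * y ^ n = algebraMap K₁ K g →
    NR k (IntermediateField.adjoin K₁ {y}) → Nonempty (GaloisSection k' K) →
    Module.finrank k k' ∈ AddSubmonoid.closure {d | PtDeg k g n j d}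

theorem deg_place {k₀ K₀ : Type u} [Field k₀] [CharZero k₀] [DecidableEq k₀] [Field K₀]
    [Algebra k₀ K₀] {g x z₀ : K₀} {f : k₀[X]} {S : Finset k₀} (hc : Coord g x z₀ f S)
    {θf πf : Place k₀ K₀ → K₀} {qf pf : Place k₀ K₀ → k₀[X]}
    (hd : ∀ P₀ : Place k₀ K₀, PData g P₀ (θf P₀) (πf P₀) (qf P₀) (pf P₀))
    {F k K₁ C : Type u} [Field F] [CharZero F] [Field k] [Field K₁] [Field C]
    [Algebra k₀ k] [Algebra k K₁] [Algebra K₀ K₁] [Algebra k₀ K₁]
    [IsScalarTower k₀ k K₁] [IsScalarTower k₀ K₀ K₁]
    [Algebra k C] [IsAlgClosed C] [Algebra.IsAlgebraic k C] [Algebra F k]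
    (hF : ∃ S : Finset F, Subfield.closure (S : Set F) = ⊤)
    {t : k} (hfin : FiniteDimensional (IntermediateField.adjoin F {t}) k)
    (hF₁ : IsFunctionField k K₁)
    (hgen₁ : IntermediateField.adjoin k (Set.range (algebraMap K₀ K₁)) = ⊤)
    (htr : Transcendental k (algebraMap K₀ K₁ x))
    {v : k} (hv0 : v ≠ 0) {W : ValuationSubring C}
    (hFW : ∀ c : F, algebraMap k C (algebraMap F k c) ∈ W)
    (hmemU : ∀ a ∈ goodElts f 1 ∪ S, algebraMap k C (algebraMap k₀ k a) ∈ W)
    (hmemp : ∀ P₀ : Place k₀ K₀, (x⁻¹ ∈ P₀.ring.nonunits ∨ aeval x f ∈ P₀.ring.nonunits) →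
      (∀ i, algebraMap k C (algebraMap k₀ k ((pf P₀).coeff i)) ∈ W) ∧
        algebraMap k C (algebraMap k₀ k ((pf P₀).coeff 0)⁻¹) ∈ W)
    (hvW : algebraMap k C v ∈ W.nonunits)
    (hdisc : ∀ z : k, z ≠ 0 → ∃ i : ℤ, W.valuation (algebraMap k C z) =
        W.valuation (algebraMap k C v) ^ i)
    (hinert : ∀ P₀ : Place k₀ K₀, (x⁻¹ ∈ P₀.ring.nonunits ∨ aeval x f ∈ P₀.ring.nonunits) →
      ∀ c : C, eval₂ ((algebraMap k C).comp (algebraMap k₀ k)) c (qf P₀) = 0 →
      ∀ σ : C ≃ₐ[k] C, InInert W σ → σ c = c)
    (hfull : ∀ P₀ : Place k₀ K₀, (x⁻¹ ∈ P₀.ring.nonunits ∨ aeval x f ∈ P₀.ring.nonunits) →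
      ∀ c : C, eval₂ ((algebraMap k C).comp (algebraMap k₀ k)) c (qf P₀) = 0 →
      ∀ σ : C ≃ₐ[k] C, ∃ γ ∈ decG k W, γ c = σ c) :
    DegTwist (algebraMap K₀ K₁ g) v := by
  classical
  have hk0 : CharZero k := charZero_of_injective_algebraMap (algebraMap k₀ k).injective
  intro n j hn k' K _ _ _ _ _ _ _ _ _ y heq hrat hs
  obtain ⟨s⟩ := hs
  -- the compositum of `k'` and `K₁`
  let L : IntermediateField k' K := IntermediateField.adjoin k' (Set.range (algebraMap K₁ K))
  have hKL1 : ∀ z : K₁, algebraMap K₁ K z ∈ L := fun z =>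
    IntermediateField.subset_adjoin _ _ ⟨z, rfl⟩
  let i1 : Algebra K₁ L := ((algebraMap K₁ K).codRestrict L.toSubring hKL1).toAlgebra
  have s1 : IsScalarTower K₁ L K := IsScalarTower.of_algebraMap_eq fun _ => rfl
  let i2 : Algebra K₀ L := ((algebraMap K₁ L).comp (algebraMap K₀ K₁)).toAlgebra
  let M : IntermediateField L K := IntermediateField.adjoin L {y}
  have hM1 : ∀ z : K₁, algebraMap K₁ K z ∈ M := fun z => M.algebraMap_mem ⟨_, hKL1 z⟩
  let i3 : Algebra K₁ M := ((algebraMap L M).comp (algebraMap K₁ L)).toAlgebra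
  have s3 : IsScalarTower K₁ M K := IsScalarTower.of_algebraMap_eq fun _ => rfl
  let i4 : Algebra k M := ((algebraMap k' M).comp (algebraMap k k')).toAlgebra
  have s4 : IsScalarTower k k' M := IsScalarTower.of_algebraMap_eq fun _ => rfl
  have hkK : ∀ a : k, algebraMap K₁ K (algebraMap k K₁ a) = algebraMap k' K (algebraMap k k' a) := by
    intro a
    rw [← IsScalarTower.algebraMap_apply, ← IsScalarTower.algebraMap_apply]
  have s5 : IsScalarTower k K₁ M := IsScalarTower.of_algebraMap_eq fun a =>
    Subtype.ext (hkK a).symm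
  let y' : M := ⟨y, IntermediateField.mem_adjoin_simple_self L y⟩
  have s6 : IsScalarTower k' M K := IsScalarTower.of_algebraMap_eq fun _ => rfl
  obtain ⟨s'⟩ := push (k := k') (K₁ := M) (K := K) s
  have hgenM : IntermediateField.adjoin L {y'} = ⊤ := by
    apply IntermediateField.lift_injective M
    rw [IntermediateField.lift_adjoin, IntermediateField.lift_top, Set.image_singleton]
  have heq' : algebraMap k M (v ^ j) * y' ^ n = algebraMap K₁ M (algebraMap K₀ K₁ g) := by
    apply Subtype.ext
    change algebraMap k' K (algebraMap k k' (v ^ j)) * y ^ n = _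
    rw [← IsScalarTower.algebraMap_apply]
    exact heq
  -- not rational
  have hrat' : ∀ z : MM k' M, IntermediateField.adjoin (kbar k' M) {z} ≠ ⊤ := by
    have hle : ∀ z : IntermediateField.adjoin K₁ {y}, (z : K) ∈ M := by
      intro z
      have h1 : (IntermediateField.adjoin K₁ {y}).toSubfield ≤ M.toSubfield := by
        rw [IntermediateField.adjoin_toSubfield, Subfield.closure_le]
        rintro _ (⟨c, rfl⟩ | hz)
        · exact hM1 c
        · rw [Set.mem_singleton_iff.1 hz]
          exact IntermediateField.mem_adjoin_simple_self L y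
      exact h1 z.2
    let i5 : Algebra (IntermediateField.adjoin K₁ {y}) M :=
      ((algebraMap (IntermediateField.adjoin K₁ {y}) K).codRestrict M.toSubring hle).toAlgebra
    have s7 : IsScalarTower k (IntermediateField.adjoin K₁ {y}) M :=
      IsScalarTower.of_algebraMap_eq fun a =>
        Subtype.ext (IsScalarTower.algebraMap_apply k k' K a).symm
    have halg : Algebra.IsAlgebraic k k' := inferInstance
    refine not_rational (nr_ext (k := k) (k' := k') (K' := IntermediateField.adjoin K₁ {y}) ?_ hrat)
    rw [eq_top_iff]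
    have hinj : Function.Injective (algebraMap M K) := (algebraMap M K).injective
    have h1 : ∀ w : K, w ∈ M → w ∈ (Subfield.closure
        (Set.range (algebraMap (IntermediateField.adjoin K₁ {y}) M) ∪
          Set.range (algebraMap k' M))).map (algebraMap M K) := by
      have h3 : ∀ w : L, (w : K) ∈ (Subfield.closure
        (Set.range (algebraMap (IntermediateField.adjoin K₁ {y}) M) ∪
          Set.range (algebraMap k' M))).map (algebraMap M K) := by
        intro w
        have h2 : L.toSubfield ≤ (Subfield.closure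
            (Set.range (algebraMap (IntermediateField.adjoin K₁ {y}) M) ∪
              Set.range (algebraMap k' M))).map (algebraMap M K) := by
          change (IntermediateField.adjoin k' (Set.range (algebraMap K₁ K))).toSubfield ≤ _
          rw [IntermediateField.adjoin_toSubfield, Subfield.closure_le]
          rintro _ (⟨c, rfl⟩ | ⟨c, rfl⟩)
          · exact ⟨algebraMap k' M c, Subfield.subset_closure (Or.inr ⟨c, rfl⟩), rfl⟩
          · exact ⟨algebraMap K₁ M c, Subfield.subset_closure
              (Or.inl ⟨algebraMap K₁ (IntermediateField.adjoin K₁ {y}) c, rfl⟩), rfl⟩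
        exact h2 w.2
      have h4 : M.toSubfield ≤ (Subfield.closure
          (Set.range (algebraMap (IntermediateField.adjoin K₁ {y}) M) ∪
            Set.range (algebraMap k' M))).map (algebraMap M K) := by
        change (IntermediateField.adjoin L {y}).toSubfield ≤ _
        rw [IntermediateField.adjoin_toSubfield, Subfield.closure_le]
        rintro _ (⟨c, rfl⟩ | hz)
        · exact h3 c
        · rw [Set.mem_singleton_iff.1 hz]
          exact ⟨y', Subfield.subset_closure
            (Or.inl ⟨⟨y, IntermediateField.mem_adjoin_simple_self K₁ y⟩, rfl⟩), rfl⟩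
      exact fun w hw => h4 hw
    rintro w -
    obtain ⟨w', hw', h5⟩ := h1 (w : K) w.2
    rw [← hinj h5]
    exact hw'
  -- the generators of `L`
  have hL : ∀ a : k₀, algebraMap K₀ L (algebraMap k₀ K₀ a) =
      algebraMap k' L (algebraMap k k' (algebraMap k₀ k a)) := by
    intro a
    apply Subtype.ext
    change algebraMap K₁ K (algebraMap K₀ K₁ (algebraMap k₀ K₀ a)) =
      algebraMap k' K (algebraMap k k' (algebraMap k₀ k a))
    rw [← IsScalarTower.algebraMap_apply k₀ K₀ K₁, IsScalarTower.algebraMap_apply k₀ k K₁, hkK]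
  have hgenL : IntermediateField.adjoin k' (Set.range (algebraMap K₀ L)) = ⊤ := by
    apply IntermediateField.lift_injective L
    rw [IntermediateField.lift_adjoin, IntermediateField.lift_top]
    apply le_antisymm
    · rw [IntermediateField.adjoin_le_iff]
      rintro _ ⟨_, ⟨c, rfl⟩, rfl⟩
      exact hKL1 _
    · change IntermediateField.adjoin k' (Set.range (algebraMap K₁ K)) ≤ _
      rw [IntermediateField.adjoin_le_iff]
      rintro _ ⟨c, rfl⟩
      have h1 : (IntermediateField.adjoin k (Set.range (algebraMap K₀ K₁))).toSubfield ≤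
          (IntermediateField.adjoin k' (Subtype.val '' Set.range (algebraMap K₀ L))).toSubfield.comap
            (algebraMap K₁ K) := by
        rw [IntermediateField.adjoin_toSubfield, Subfield.closure_le]
        rintro _ (⟨a, rfl⟩ | ⟨a, rfl⟩)
        · change algebraMap K₁ K (algebraMap k K₁ a) ∈ IntermediateField.adjoin k' _
          rw [hkK]
          exact IntermediateField.algebraMap_mem _ _
        · exact IntermediateField.subset_adjoin _ _ ⟨algebraMap K₀ L a, ⟨a, rfl⟩, rfl⟩
      rw [hgen₁] at h1
      exact h1 (Subfield.mem_top c)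
  have htrL : Transcendental k' (algebraMap K₀ L x) := by
    intro h1
    apply htr
    have h2 : IsAlgebraic k' (algebraMap K₁ K (algebraMap K₀ K₁ x)) := h1.algebraMap (A := K)
    have h3 : IsAlgebraic k (algebraMap K₁ K (algebraMap K₀ K₁ x)) := h2.restrictScalars k
    exact (isAlgebraic_algebraMap_iff (algebraMap K₁ K).injective).1 h3
  refine finrank_mem_closure (C := C) (decG k W) fun τ => ?_
  exact deg_section hc hd hF hfin hF₁ hgen₁ hv0 hFW hmemU hmemp hvW hdisc hinert hfull hn (k' := k')
    (L := L) (K := M) hL (fun z => rfl) hgenL htrL (y := y') hgenM heq' hrat' s' τ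

end Pool.Agent.TWX
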