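import Pool.Agent.Helper10.TWX.X5

/-!
# Project TWX: the local statement for a section over an extension of `k`
-/

universe u

set_option linter.unusedSectionVars false

namespace Pool.Agent.TWX

open VC Polynomial Pool.Agent.LT Pool.Agent.SC Pool.Agent.Helper91.Sect Pool.Agent Pool.Agent.GC
  Pool.Agent.TW Pool.Agent.TWU

/-- **The local statement.** -/
theorem local_place {k₀ K₀ : Type u} [Field k₀] [CharZero k₀] [DecidableEq k₀] [Field K₀]
    [Algebra k₀ K₀] {g x z₀ : K₀} {f : k₀[X]} {S : Finset k₀} (hc : Coord g x z₀ f S)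
    {θf πf : Place k₀ K₀ → K₀} {qf pf : Place k₀ K₀ → k₀[X]}
    (hd : ∀ P₀ : Place k₀ K₀, PData g P₀ (θf P₀) (πf P₀) (qf P₀) (pf P₀))
    {F k K₁ k' L K : Type u} [Field F] [CharZero F] [Field k] [Field K₁] [Field k'] [Field L] [Field K]
    [Algebra k₀ k] [Algebra k K₁] [Algebra K₀ K₁] [Algebra k₀ K₁]
    [IsScalarTower k₀ k K₁] [IsScalarTower k₀ K₀ K₁]
    [Algebra F k'] [Algebra k k'] [Algebra k₀ k'] [IsScalarTower k₀ k k']
    [Algebra k' L] [Algebra K₀ L] [Algebra k₀ L] [IsScalarTower k₀ k' L] [IsScalarTower k₀ K₀ L]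
    [Algebra k' K] [Algebra L K] [IsScalarTower k' L K]
    [Algebra K₁ K] [Algebra k K] [IsScalarTower k K₁ K] [IsScalarTower k k' K]
    (hKL : ∀ z : K₀, algebraMap L K (algebraMap K₀ L z) = algebraMap K₁ K (algebraMap K₀ K₁ z))
    (hF : ∃ S : Finset F, Subfield.closure (S : Set F) = ⊤)
    (hk : ∃ S : Finset k', Subfield.closure (S : Set k') = ⊤)
    {t : k'} (hfin : FiniteDimensional (IntermediateField.adjoin F {t}) k')
    (hF₁ : IsFunctionField k K₁)
    (hgen₁ : IntermediateField.adjoin k (Set.range (algebraMap K₀ K₁)) = ⊤)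
    (hgenL : IntermediateField.adjoin k' (Set.range (algebraMap K₀ L)) = ⊤)
    (htrL : Transcendental k' (algebraMap K₀ L x))
    {v : k} (hv0 : v ≠ 0) {ϖ : k'} {e n j : ℕ} (hn : 0 < n) (hj : ¬ n ∣ e * j) {y : K}
    (hgen : IntermediateField.adjoin L {y} = ⊤)
    (heq : algebraMap k K (v ^ j) * y ^ n = algebraMap K₁ K (algebraMap K₀ K₁ g))
    (hrat : ∀ z : MM k' K, IntermediateField.adjoin (kbar k' K) {z} ≠ ⊤)
    {W : ValuationSubring (kbar k' K)} (hWtop : W ≠ ⊤)
    (hFW : ∀ c : F, algebraMap k' (kbar k' K) (algebraMap F k' c) ∈ W)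
    (hmemU : ∀ a ∈ goodElts f 1 ∪ S, algebraMap k' (kbar k' K) (algebraMap k₀ k' a) ∈ W)
    (hmemp : ∀ P₀ : Place k₀ K₀, (x⁻¹ ∈ P₀.ring.nonunits ∨ aeval x f ∈ P₀.ring.nonunits) →
      (∀ i, algebraMap k' (kbar k' K) (algebraMap k₀ k' ((pf P₀).coeff i)) ∈ W) ∧
        algebraMap k' (kbar k' K) (algebraMap k₀ k' ((pf P₀).coeff 0)⁻¹) ∈ W)
    (hϖW : algebraMap k' (kbar k' K) ϖ ∈ W.nonunits) (hϖ0 : ϖ ≠ 0)
    (hdisc : ∀ z : k', z ≠ 0 → ∃ i : ℤ, W.valuation (algebraMap k' (kbar k' K) z) =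
        W.valuation (algebraMap k' (kbar k' K) ϖ) ^ i)
    (hve : W.valuation (algebraMap k' (kbar k' K) (algebraMap k k' v)) =
      W.valuation (algebraMap k' (kbar k' K) ϖ) ^ e)
    (s : GaloisSection k' K) :
    ∃ P₀ : Place k₀ K₀, (x⁻¹ ∈ P₀.ring.nonunits ∨ aeval x f ∈ P₀.ring.nonunits) ∧
      ∃ (O : ValuationSubring K₁) (r : k[X]) (δ : ℕ) (c ρ : kbar k' K), O ≠ ⊤ ∧
        (∀ a : k, algebraMap k K₁ a ∈ O) ∧ Irreducible r ∧ HasDeg k O r.natDegree ∧
        OrdGcd O (algebraMap K₀ K₁ g) n δ ∧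
        eval₂ ((algebraMap k' (kbar k' K)).comp (algebraMap k k')) c r = 0 ∧
        eval₂ ((algebraMap k' (kbar k' K)).comp (algebraMap k₀ k')) c (qf P₀) = 0 ∧
        W.valuation (ρ ^ δ * algebraMap k' (kbar k' K) (algebraMap k k' v) ^ j) = 1 ∧
        ∀ γ : Gk k' K, InDecomp W γ → γ c = c ∧ γ ρ = ρ := by
  classical
  have hk0 : CharZero k := charZero_of_injective_algebraMap (algebraMap k₀ k).injective
  have hk0' : CharZero k' := charZero_of_injective_algebraMap (algebraMap k₀ k').injective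
  have hc1 : Coord (algebraMap K₀ L g) (algebraMap K₀ L x) (algebraMap K₀ L z₀)
      (f.map (algebraMap k₀ k')) (S.image (algebraMap k₀ k')) := coord_map hc hgenL htrL
  have hv0' : algebraMap k k' v ≠ 0 := (_root_.map_ne_zero _).2 hv0
  have hvϖ : W.valuation (algebraMap k' (kbar k' K) ϖ) ≠ 0 :=
    (Valuation.ne_zero_iff _).2 ((_root_.map_ne_zero _).2 hϖ0)
  -- the coefficient
  have hvj : (algebraMap k k' v) ^ j = ϖ ^ (e * j) * (algebraMap k k' v / ϖ ^ e) ^ j := by
    rw [div_pow, pow_mul, mul_div_cancel₀ _ (pow_ne_zero _ (pow_ne_zero _ hϖ0))]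
  have hunit : W.valuation (algebraMap k' (kbar k' K) ((algebraMap k k' v / ϖ ^ e) ^ j)) = 1 := by
    rw [map_pow, map_pow, map_div₀, map_div₀, map_pow, map_pow, hve,
      div_self (pow_ne_zero _ hvϖ), one_pow]
  have heq' : algebraMap k' K ((algebraMap k k' v) ^ j) * y ^ n = algebraMap L K (algebraMap K₀ L g) := by
    rw [hKL, ← heq, ← map_pow, ← IsScalarTower.algebraMap_apply]
  obtain ⟨P, hP, hP1, hPB, hres⟩ := place_core hF hk hfin hc1 hn hj hgen heq' hrat hWtop hFW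
    (fun a ha => by
      rcases Finset.mem_union.1 ha with ha | ha
      · obtain ⟨b, hb, rfl⟩ := Finset.mem_image.1
          (goodElts_map (k := k') (by have := hc.deg; omega) ha)
        exact hmemU b (Finset.mem_union_left _ hb)
      · obtain ⟨b, hb, rfl⟩ := Finset.mem_image.1 ha
        exact hmemU b (Finset.mem_union_right _ hb)) hϖW hϖ0 hdisc hvj hunit s
  -- the place of `K₀`
  let χ : K₀ →+* K := (algebraMap L K).comp (algebraMap K₀ L)
  let μ : K →+* UU k' K := toU (k := k')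
  have hμ : ∀ a : k', μ (algebraMap k' K a) =
      algebraMap (kbar k' K) (UU k' K) (algebraMap k' (kbar k' K) a) := fun a => rfl
  have hx0 : x ≠ 0 := by
    rintro rfl
    exact hc.x_tr isAlgebraic_zero
  have htf : Transcendental k₀ (aeval x f) := hc.x_tr.aeval f (by have := hc.deg; omega)
    (mem_nonZeroDivisors_of_ne_zero
      (leadingCoeff_ne_zero.2 (ne_zero_of_natDegree_gt (n := 0) (by have := hc.deg; omega))))
  have hbad : x⁻¹ ∈ (P.comap (μ.comp χ)).nonunits ∨ aeval x f ∈ (P.comap (μ.comp χ)).nonunits := by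
    rw [nonunits_comap_iff, nonunits_comap_iff]
    rcases hPB with h | h
    · left
      rw [← map_inv₀ (algebraMap K₀ L)] at h
      exact h
    · right
      rw [← aeval_alg (k := k')] at h
      exact h
  let P₀ : Place k₀ K₀ :=
    { ring := P.comap (μ.comp χ)
      algebraMap_mem := fun c => by
        rw [ValuationSubring.mem_comap]
        change μ (algebraMap L K (algebraMap K₀ L (algebraMap k₀ K₀ c))) ∈ P
        rw [← IsScalarTower.algebraMap_apply k₀ K₀ L, IsScalarTower.algebraMap_apply k₀ k' L,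
          ← IsScalarTower.algebraMap_apply k' L K, hμ]
        exact hP _
      ne_top := by
        intro h
        have h1 : ∀ z : K₀, z ≠ 0 → z ∉ (P.comap (μ.comp χ)).nonunits := by
          intro z hz h2
          rcases (ValuationSubring.mem_nonunits_iff_or _).1 h2 with h3 | h3
          · exact hz h3
          · apply h3
            rw [h]
            trivial
        rcases hbad with h2 | h2
        · exact h1 _ (inv_ne_zero hx0) h2
        · refine h1 _ ?_ h2
          intro h3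
          exact htf (by rw [h3]; exact isAlgebraic_zero) }
  have hdP := hd P₀
  have hP₀χ : ∀ z : K₀, μ (χ z) ∈ P ↔ z ∈ P₀.ring := fun z => Iff.rfl
  have hP₀φ : ∀ z : K₀, (μ.comp (algebraMap K₁ K)) (algebraMap K₀ K₁ z) ∈ P ↔ z ∈ P₀.ring := by
    intro z
    rw [← hP₀χ]
    change μ (algebraMap K₁ K (algebraMap K₀ K₁ z)) ∈ P ↔ μ (algebraMap L K (algebraMap K₀ L z)) ∈ P
    rw [hKL]
  obtain ⟨c, hc1', hc2⟩ := hres (χ (θf P₀)) ((hP₀χ _).2 hdP.hθ)
  obtain ⟨h1, h2, ⟨r, hr, hrc, hdeg⟩, hqc, hgcd⟩ := resid_data (n := n) hc.ff hc.g_ne hdP hF₁ hgen₁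
    ((algebraMap k' (kbar k' K)).comp (algebraMap k k')) (μ.comp (algebraMap K₁ K)) (fun a => by
      change μ (algebraMap K₁ K (algebraMap k K₁ a)) = _
      rw [← IsScalarTower.algebraMap_apply, IsScalarTower.algebraMap_apply k k' K, hμ]
      rfl) hP hP₀φ (c := c) (by
      have h3 : (μ.comp (algebraMap K₁ K)) (algebraMap K₀ K₁ (θf P₀)) = μ (χ (θf P₀)) := by
        change μ (algebraMap K₁ K (algebraMap K₀ K₁ (θf P₀))) = μ (algebraMap L K _)
        rw [hKL]
      rw [h3]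
      exact hc1') hn
  obtain ⟨ρ, hρ1, hρ2⟩ := rho_data hc.ff hc.g_ne hdP χ μ
    ((algebraMap k' (kbar k' K)).comp (algebraMap k₀ k')) (fun a => by
      change μ (algebraMap L K (algebraMap K₀ L (algebraMap k₀ K₀ a))) = _
      rw [← IsScalarTower.algebraMap_apply k₀ K₀ L, IsScalarTower.algebraMap_apply k₀ k' L,
        ← IsScalarTower.algebraMap_apply k' L K, hμ]
      rfl) hP hP₀χ hn (A := algebraMap k' K ((algebraMap k k' v) ^ j))
    (a := algebraMap k' (kbar k' K) (algebraMap k k' v) ^ j)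
    (pow_ne_zero _ ((_root_.map_ne_zero _).2 hv0')) (by rw [hμ, map_pow]) heq'
    (Q := fun c => ∀ γ : Gk k' K, InDecomp W γ → γ c = c) hres
  refine ⟨P₀, hbad, P.comap (μ.comp (algebraMap K₁ K)), r, Int.gcd n (ord P₀.ring g), c, ρ, h1, h2,
    hr, hdeg, hgcd, hrc, ?_, ?_, fun γ hγ => ⟨hc2 γ hγ, hρ1 γ hγ⟩⟩
  · rw [RingHom.comp_assoc, ← IsScalarTower.algebraMap_eq] at hqc
    exact hqc
  · obtain ⟨hm1, hm2⟩ := hmemp P₀ hbad
    let i : Algebra k₀ (kbar k' K) := ((algebraMap k' (kbar k' K)).comp (algebraMap k₀ k')).toAlgebra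
    exact val_root hdP.hp hdP.hp0 (Ω := kbar k' K) hρ2 hm1 hm2

end Pool.Agent.TWX
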