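import Pool.Agent.Helper13.LT.F0
import Pool.Agent.SC.Pub
import Pool.Agent.Helper10.TWX.X6

/-!
# Project TWX: curves which are not rational, and extensions of the ground field
-/

universe u

set_option linter.unusedSectionVars false

namespace Pool.Agent.TWX

open VC Polynomial Pool.Agent.LT Pool.Agent.SC Pool.Agent.Helper91.Sect Pool.Agent Pool.Agent.GC
  Pool.Agent.TW Pool.Agent.TWU MulAction Pool.Agent.Helper37.UL UL

/-- The curve over `k` with function field `K` is not rational over the algebraic closure of `k`. -/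
def NR (k K : Type u) [Field k] [Field K] [Algebra k K] : Prop :=
  ∀ z : AlgebraicClosure K,
    Subfield.closure ({c | IsAlgebraic k c} ∪ Set.range (algebraMap K (AlgebraicClosure K))) ≠
      Subfield.closure ({c | IsAlgebraic k c} ∪ {z})

theorem closure_alg (k K : Type u) [Field k] [Field K] [Algebra k K] (A : Set (AlgebraicClosure K)) :
    Subfield.closure ({c | IsAlgebraic k c} ∪ A) =
      (IntermediateField.adjoin (kbar k K) A).toSubfield := by
  rw [← range_kbar]
  rfl

theorem not_rational {k K : Type u} [Field k] [Field K] [Algebra k K]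
    (h : NR k K) (z : Pool.Agent.LT.MM k K) :
    IntermediateField.adjoin (kbar k K) {z} ≠ ⊤ := by
  intro hz
  apply h ((z : Pool.Agent.LT.UU k K) : AlgebraicClosure K)
  rw [closure_alg, closure_alg]
  congr 1
  have h1 : IntermediateField.adjoin (kbar k K) (Set.range (algebraMap K (AlgebraicClosure K))) =
      (⊤ : IntermediateField (kbar k K) (Pool.Agent.LT.MM k K)).map
        ((Pool.Agent.LT.UU k K).val.comp (Pool.Agent.LT.MM k K).val) := by
    change KK k K = _
    ext w
    constructor
    · intro hw
      exact ⟨⟨⟨w, Pool.Agent.LT.KK_le_UU k K hw⟩,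
        (IntermediateField.mem_restrict (Pool.Agent.LT.KK_le_UU k K) _).2 hw⟩, trivial, rfl⟩
    · rintro ⟨m, -, rfl⟩
      exact (IntermediateField.mem_restrict (Pool.Agent.LT.KK_le_UU k K) _).1 m.2
  rw [h1, ← hz, IntermediateField.adjoin_map, Set.image_singleton]
  rfl

/-- Extensions of the ground field. -/
theorem nr_ext {k k' K' K : Type u} [Field k] [Field k'] [Field K'] [Field K] [Algebra k k']
    [Algebra.IsAlgebraic k k'] [Algebra k K'] [Algebra k' K] [Algebra K' K] [Algebra k K]
    [IsScalarTower k k' K] [IsScalarTower k K' K]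
    (hgen : Subfield.closure (Set.range (algebraMap K' K) ∪ Set.range (algebraMap k' K)) = ⊤)
    (h : NR k K') : NR k' K := by
  intro z hz
  let Ω := AlgebraicClosure K
  have hk'alg : ∀ a : k', IsAlgebraic K' (algebraMap k' K a) := by
    intro a
    have h1 : IsAlgebraic k (algebraMap k' K a) :=
      (Algebra.IsAlgebraic.isAlgebraic (R := k) a).algebraMap
    exact h1.tower_top K'
  have halg : Algebra.IsAlgebraic K' K := by
    refine ⟨fun w => ?_⟩
    have h1 : (⊤ : Subfield K) ≤ (algebraicClosure K' K).toSubfield := by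
      rw [← hgen, Subfield.closure_le]
      rintro _ (⟨a, rfl⟩ | ⟨a, rfl⟩)
      · exact IntermediateField.algebraMap_mem _ a
      · exact mem_algebraicClosure_iff.2 (hk'alg a)
    exact mem_algebraicClosure_iff.1 (h1 (Subfield.mem_top w))
  have halg2 : Algebra.IsAlgebraic K' Ω := Algebra.IsAlgebraic.trans K' K Ω
  have hclo : IsAlgClosure K' Ω := ⟨inferInstance, halg2⟩
  let e : Ω ≃ₐ[K'] AlgebraicClosure K' := IsAlgClosure.equiv K' Ω (AlgebraicClosure K')
  have hek : ∀ a : k, e (algebraMap k Ω a) = algebraMap k (AlgebraicClosure K') a := by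
    intro a
    rw [IsScalarTower.algebraMap_apply k K' Ω, e.commutes, ← IsScalarTower.algebraMap_apply]
  let ek : Ω ≃ₐ[k] AlgebraicClosure K' := AlgEquiv.ofRingEquiv (f := e.toRingEquiv) hek
  have hekk : ∀ w, ek w = e w := fun _ => rfl
  have hA : (e : Ω →+* AlgebraicClosure K') '' {c | IsAlgebraic k' c} = {c | IsAlgebraic k c} := by
    ext c
    constructor
    · rintro ⟨w, hw, rfl⟩
      have h1 : IsAlgebraic k w := (IsAlgebraic.restrictScalars k hw)
      exact h1.algHom (ek : Ω →ₐ[k] AlgebraicClosure K')
    · intro hc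
      have h1 : IsAlgebraic k (ek.symm c) := IsAlgebraic.algHom (ek.symm : AlgebraicClosure K' →ₐ[k] Ω) hc
      exact ⟨ek.symm c, h1.tower_top k', ek.apply_symm_apply c⟩
  have h2 := congrArg (Subfield.map (e : Ω →+* AlgebraicClosure K')) hz
  rw [RingHom.map_field_closure, RingHom.map_field_closure, Set.image_union, Set.image_union, hA,
    Set.image_singleton] at h2
  apply h (e z)
  rw [← show (e : Ω →+* AlgebraicClosure K') z = e z from rfl, ← h2]
  apply le_antisymm
  · refine Subfield.closure_mono (Set.union_subset_union_right _ ?_)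
    rintro _ ⟨a, rfl⟩
    refine ⟨algebraMap K Ω (algebraMap K' K a), ⟨_, rfl⟩, ?_⟩
    rw [← IsScalarTower.algebraMap_apply]
    exact e.commutes a
  · rw [Subfield.closure_le]
    rintro c (hc | ⟨_, ⟨w, rfl⟩, rfl⟩)
    · exact Subfield.subset_closure (Or.inl hc)
    · have h3 : (⊤ : Subfield K) ≤ (Subfield.closure ({c | IsAlgebraic k c} ∪
          Set.range (algebraMap K' (AlgebraicClosure K')))).comap
            ((e : Ω →+* AlgebraicClosure K').comp (algebraMap K Ω)) := by
        rw [← hgen, Subfield.closure_le]
        rintro _ (⟨a, rfl⟩ | ⟨a, rfl⟩)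
        · refine Subfield.subset_closure (Or.inr ⟨a, ?_⟩)
          change _ = e (algebraMap K Ω (algebraMap K' K a))
          rw [← IsScalarTower.algebraMap_apply]
          exact (e.commutes a).symm
        · refine Subfield.subset_closure (Or.inl ?_)
          have h4 : IsAlgebraic k (algebraMap K Ω (algebraMap k' K a)) :=
            ((Algebra.IsAlgebraic.isAlgebraic (R := k) a).algebraMap (A := K)).algebraMap
          exact h4.algHom (ek : Ω →ₐ[k] AlgebraicClosure K')
      exact h3 (Subfield.mem_top w)

end Pool.Agent.TWX
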