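import Pool.Agent.Helper10.TWX.X14
import Pool.Agent.Helper37.TWU.G

/-!
# Project TWX: good places from good discriminants
-/

universe u

set_option linter.unusedSectionVars false

namespace Pool.Agent.TWX

open VC Polynomial Pool.Agent.LT Pool.Agent.SC Pool.Agent.Helper91.Sect Pool.Agent Pool.Agent.GC
  Pool.Agent.TWH Pool.Agent.TWU

theorem ev_map {F k C : Type u} [Field F] [Field k] [Field C] [Algebra F k] [Algebra k C] [Algebra F C]
    [IsScalarTower F k C] (v u : k) (p : F[X][X]) :
    ev F (algebraMap k C v) (algebraMap k C u) p = algebraMap k C (ev F v u p) := by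
  have h1 : ev F (algebraMap k C v) (algebraMap k C u) = (algebraMap k C).comp (ev F v u) := by
    apply Polynomial.ringHom_ext
    · intro q
      rw [RingHom.comp_apply, ev_C, ev_C, aeval_algebraMap_apply]
    · rw [RingHom.comp_apply, ev_X, ev_X]
  rw [h1]
  rfl

/-- **A good place** for a member of the linear system with a good discriminant. -/
theorem goodPl_of_goodAt {F k : Type u} [Field F] [CharZero F] [Field k] [Algebra F k]
    (hF : ∃ S : Finset F, Subfield.closure (S : Set F) = ⊤)
    {v u : k} (hvu : AlgebraicIndependent F ![v, u]) (hfin : FiniteDimensional (k0 F v u) k)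
    (hreg : ∀ z : k, IsAlgebraic (IntermediateField.adjoin F {v}) z →
      z ∈ IntermediateField.adjoin F {v})
    {Δ : F[X][X]} (hΔ : GoodDisc Δ) {E : Finset (AlgebraicClosure k)}
    (hE : ∀ a : k, algebraMap k (AlgebraicClosure k) a ∈
      IntermediateField.adjoin F (E : Set (AlgebraicClosure k)))
    (h : GoodAt F (algebraMap k (AlgebraicClosure k) v) (algebraMap k (AlgebraicClosure k) u) Δ E)
    {k₀ : Type u} [Field k₀] {M : Finset k₀[X]} {U₀ : Finset k₀} {ι : k₀ →+* k}
    (hU : ∀ a ∈ U₀, a ≠ 0 ∧ algebraMap k (AlgebraicClosure k) (ι a) ∈ E ∧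
      algebraMap k (AlgebraicClosure k) (ι a⁻¹) ∈ E)
    (hM : ∀ q ∈ M, ∀ b : AlgebraicClosure k,
      eval₂ ((algebraMap k (AlgebraicClosure k)).comp ι) b q = 0 → b ∈ E) :
    ∃ W : ValuationSubring (AlgebraicClosure k),
      GoodPl (F := IntermediateField.adjoin F {u}) M U₀ ι v W := by
  classical
  let C := AlgebraicClosure k
  have hk0 : CharZero k := charZero_of_injective_algebraMap (algebraMap F k).injective
  have h00 : CharZero (k0 F v u) :=
    charZero_of_injective_algebraMap (algebraMap F (k0 F v u)).injective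
  have halg0 : Algebra.IsAlgebraic (k0 F v u) C := Algebra.IsAlgebraic.trans (k0 F v u) k C
  have hcl0 : IsAlgClosure (k0 F v u) C := ⟨inferInstance, halg0⟩
  have hnor0 : Normal (k0 F v u) C := IsAlgClosure.normal (k0 F v u) C
  have hgal : IsGalois (k0 F v u) C := ⟨⟩
  have htu0 := algInd0 hvu
  obtain ⟨W, hW0⟩ := exists_atZero (C := C) htu0
  have hv0 : v ≠ 0 := by
    rintro rfl
    exact transc_F_t hvu isAlgebraic_zero
  have hvt : ∀ W' : ValuationSubring C, algebraMap (k0 F v u) C (t0 F v u) ∈ W' ↔
      algebraMap k C v ∈ W' := fun _ => Iff.rfl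
  -- the conditions at good places
  have hgoodE : ∀ W' : ValuationSubring C,
      (∀ c : F, algebraMap k C (algebraMap F k c) ∈ W') →
      algebraMap k C v ∈ W' → algebraMap k C u ∈ W' →
      algebraMap k C (ev F v u Δ) ∉ W'.nonunits →
      (∀ a ∈ E, a ∈ W') ∧ ∀ τ : C ≃ₐ[k0 F v u] C, InInert W' τ →
          (∀ a : k, τ (algebraMap k C a) = algebraMap k C a) ∧ ∀ a ∈ E, τ a = a := by
    intro W' hFW hvW huW hunit
    obtain ⟨h1, h2⟩ := h C W' hFW hvW huW (by
      rw [ev_map]
      exact hunit)
    refine ⟨h1, fun τ hτ => ?_⟩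
    have h3 : ∀ a ∈ E, τ a = a := by
      refine h2 τ.toRingEquiv.toRingHom (fun c => ?_) ?_ ?_ hτ.2
      · exact τ.commutes ⟨algebraMap F k c, IntermediateField.algebraMap_mem _ c⟩
      · exact τ.commutes ⟨v, IntermediateField.subset_adjoin _ _ (Or.inl rfl)⟩
      · exact τ.commutes ⟨u, IntermediateField.subset_adjoin _ _ (Or.inr rfl)⟩
    refine ⟨fun a => ?_, h3⟩
    have hL : (IntermediateField.adjoin F (E : Set C)).toSubfield ≤
        (τ.toRingEquiv.toRingHom).eqLocusField (RingHom.id C) := by
      rw [IntermediateField.adjoin_toSubfield, Subfield.closure_le]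
      rintro a (⟨e, rfl⟩ | ha)
      · exact τ.commutes ⟨algebraMap F k e, IntermediateField.algebraMap_mem _ e⟩
      · exact h3 a ha
    exact hL (hE a)
  have hunit0 : ∀ W' : ValuationSubring C, algebraMap (k0 F v u) C
      (ev F (t0 F v u) (u0 F v u) Δ) ∉ W'.nonunits → algebraMap k C (ev F v u Δ) ∉ W'.nonunits := by
    intro W' h1
    rw [← ev0]
    exact h1
  have hconstW : ∀ c ∈ IntermediateField.adjoin F {u}, algebraMap k C c ∈ W := by
    intro c hc
    obtain ⟨c', rfl, hc'⟩ := mem_adjoin0 (F := F) (t := v) (u := u) (v := u)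
      (v' := u0 F v u) rfl hc
    exact hW0.const c' hc'
  have hFW : ∀ c : F, algebraMap k C (algebraMap F k c) ∈ W := fun c =>
    hconstW _ (IntermediateField.algebraMap_mem _ c)
  have hvW : algebraMap k C v ∈ W.nonunits := hW0.t_mem
  have huW : algebraMap k C u ∈ W := hconstW _ (IntermediateField.mem_adjoin_simple_self F u)
  -- the discriminant is a unit at `W`
  have hunitW : algebraMap k C (ev F v u Δ) ∉ W.nonunits := by
    let e : C ≃ₐ[k] kbar k k := IsAlgClosure.equiv k C (kbar k k)
    let W1 : ValuationSubring (kbar k k) := W.comap (e.symm : kbar k k →+* C)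
    have hek : ∀ z : k, (e.symm : kbar k k →+* C) (algebraMap k (kbar k k) z) = algebraMap k C z :=
      fun z => e.symm.commutes z
    have hW1 : AtZero F v u W1 := by
      refine ⟨fun c hc => ?_, ?_⟩
      · rw [ValuationSubring.mem_comap, hek]
        exact hconstW c hc
      · rw [nonunits_comap_iff, hek]
        exact hvW
    have h1 := atZero_unit hvu hΔ hW1
    rw [nonunits_comap_iff, hek] at h1
    exact h1
  obtain ⟨hEW, hinW⟩ := hgoodE W hFW (ValuationSubring.nonunits_subset hvW) huW hunitW
  refine ⟨W, fun c => hconstW _ c.2, ?_, hvW, ?_, ?_⟩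
  · intro a ha
    obtain ⟨ha0, h1, h2⟩ := hU a ha
    have h3 := (W.valuation_le_one_iff _).2 (hEW _ h1)
    have h4 := (W.valuation_le_one_iff _).2 (hEW _ h2)
    rw [map_inv₀, map_inv₀, map_inv₀] at h4
    have h5 : W.valuation (algebraMap k C (ι a)) ≠ 0 :=
      (Valuation.ne_zero_iff _).2 ((_root_.map_ne_zero _).2 ((_root_.map_ne_zero _).2 ha0))
    exact le_antisymm h3 ((inv_le_one₀ (zero_lt_iff.2 h5)).1 h4)
  · intro z hz
    exact vals_of_inert (k := k0 F v u) (t0 F v u) (u0 F v u) htu0 (top0 v u) hW0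
      ((_root_.map_ne_zero (algebraMap k C)).2 hz) (fun τ hτ => (hinW τ hτ).1 z)
  · intro q hq b hb hbk
    by_contra hcon
    push Not at hcon
    have hbE := hM q hq b hb
    let Mk : IntermediateField (k0 F v u) C := (IsScalarTower.toAlgHom (k0 F v u) k C).fieldRange
    let Nb : IntermediateField (k0 F v u) C := IntermediateField.adjoin (k0 F v u) {b}
    let H : Subgroup (C ≃ₐ[k0 F v u] C) := Mk.fixingSubgroup ⊓ Nb.fixingSubgroup
    have hmemM : ∀ τ : C ≃ₐ[k0 F v u] C, (∀ a : k, τ (algebraMap k C a) = algebraMap k C a) →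
        τ ∈ Mk.fixingSubgroup := by
      intro τ hτ
      rw [IntermediateField.mem_fixingSubgroup_iff]
      rintro _ ⟨a, rfl⟩
      exact hτ a
    have hmemN : ∀ τ : C ≃ₐ[k0 F v u] C, τ b = b → τ ∈ Nb.fixingSubgroup := by
      intro τ hτ
      rw [IntermediateField.mem_fixingSubgroup_iff]
      intro x hx
      have h1 : Nb ≤ (AlgHom.equalizer (τ : C →ₐ[k0 F v u] C) (AlgHom.id (k0 F v u) C) :
          Subalgebra (k0 F v u) C).toIntermediateField (fun z hz => by
            change τ z⁻¹ = z⁻¹
            rw [map_inv₀]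
            exact congrArg _ hz) := by
        rw [IntermediateField.adjoin_simple_le_iff]
        exact hτ
      exact h1 hx
    have hHcl : IsClosed (H : Set (C ≃ₐ[k0 F v u] C)) :=
      (InfiniteGalois.fixingSubgroup_isClosed Mk).inter (InfiniteGalois.fixingSubgroup_isClosed Nb)
    have hH : H = Mk.fixingSubgroup := by
      refine lefschetz_gen hF (t0 F v u) (u0 F v u) htu0 (top0 v u) hΔ Mk H hHcl inf_le_left ?_ ?_ ?_
        hW0 ?_
      · intro τ
        refine exists_agree (t0 F v u) Mk ?_ τ
        rintro z ⟨r, rfl⟩ hz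
        have h1 : IsAlgebraic (IntermediateField.adjoin F {v}) r := by
          have h2 : IsAlgebraic (IntermediateField.adjoin F {v}) (algebraMap k C r) := by
            refine isAlgebraic_of_range_le (A := IntermediateField.adjoin F {t0 F v u})
              (fun v' => ?_) hz
            exact ⟨⟨_, coe_mem_adjoin0 (F := F) (t := v) (u := u) (v := v) (v' := t0 F v u) rfl
              v'.2⟩, rfl⟩
          exact (isAlgebraic_algebraMap_iff (algebraMap k C).injective).1 h2
        obtain ⟨c', hc', hc''⟩ := mem_adjoin0 (F := F) (t := v) (u := u) (v := v)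
          (v' := t0 F v u) rfl (hreg r h1)
        refine ⟨c', hc'', ?_⟩
        rw [← hc']
        rfl
      · intro W' hW' τ hτ
        have hconst : ∀ c ∈ IntermediateField.adjoin F {v}, algebraMap k C c ∈ W' := by
          intro c hc
          obtain ⟨c', rfl, hc'⟩ := mem_adjoin0 (F := F) (t := v) (u := u) (v := v)
            (v' := t0 F v u) rfl hc
          exact hW'.const c' hc'
        obtain ⟨-, h2⟩ := hgoodE W' (fun c => hconst _ (IntermediateField.algebraMap_mem _ c))
          (hconst _ (IntermediateField.mem_adjoin_simple_self F v)) hW'.u_mem (hunit0 W' hW'.unit)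
        exact ⟨hmemM τ (h2 τ hτ).1, hmemN τ ((h2 τ hτ).2 b hbE)⟩
      · intro W' hW' τ hτ
        have hconst : ∀ c ∈ IntermediateField.adjoin F {u}, algebraMap k C c ∈ W' := by
          intro c hc
          obtain ⟨c', rfl, hc'⟩ := mem_adjoin0 (F := F) (t := v) (u := u) (v := u)
            (v' := u0 F v u) rfl hc
          exact hW'.const c' hc'
        obtain ⟨-, h2⟩ := hgoodE W' (fun c => hconst _ (IntermediateField.algebraMap_mem _ c))
          hW'.t_mem (hconst _ (IntermediateField.mem_adjoin_simple_self F u)) (hunit0 W' hW'.unit)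
        exact ⟨hmemM τ (h2 τ hτ).1, hmemN τ ((h2 τ hτ).2 b hbE)⟩
      · intro τ hτ hτW
        refine ⟨hτ, hmemN τ ?_⟩
        rw [IntermediateField.mem_fixingSubgroup_iff] at hτ
        exact hcon (AlgEquiv.ofRingEquiv (f := τ.toRingEquiv) fun a => hτ _ ⟨a, rfl⟩) hτW
    have hbM : b ∈ Mk := by
      rw [← InfiniteGalois.fixedField_fixingSubgroup Mk, IntermediateField.mem_fixedField_iff]
      intro τ hτ
      rw [← hH] at hτ
      have h1 : τ ∈ Nb.fixingSubgroup := hτ.2
      rw [IntermediateField.mem_fixingSubgroup_iff] at h1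
      exact h1 b (IntermediateField.mem_adjoin_simple_self _ b)
    obtain ⟨a, ha⟩ := hbM
    exact hbk a ha

end Pool.Agent.TWX
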