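import Pool.Agent.Helper10.TWX.X17

/-!
# Project TWX: good discriminants over an algebraic extension of the field of definition
-/

universe u

set_option linter.unusedSectionVars false

namespace Pool.Agent.TWX

open VC Polynomial Pool.Agent.LT Pool.Agent.SC Pool.Agent.Helper91.Sect Pool.Agent Pool.Agent.GC
  Pool.Agent.TWH Pool.Agent.TWU

/-- **Good discriminants** for finitely many elements of an algebraic extension `N₀` of `k₀`. -/
theorem exists_goodAtN {F₁ k₀ N₀ : Type u} [Field F₁] [CharZero F₁] [Field k₀] [Algebra F₁ k₀]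
    [Field N₀] [Algebra k₀ N₀] [Algebra F₁ N₀] [IsScalarTower F₁ k₀ N₀] [Algebra.IsAlgebraic k₀ N₀]
    {ι : Type} [Fintype ι] [DecidableEq ι] {w : ι → k₀} {i j l : ι} (hl : w l = 1)
    (hij : AlgebraicIndependent F₁ ![w i, w j])
    (hk : ∀ z : k₀, IsAlgebraic (IntermediateField.adjoin F₁ {w i, w j}) z) (E : Finset N₀) :
    ∃ Ψ : MvPolynomial ι F₁, Ψ ≠ 0 ∧ ∃ Ψ' : MvPolynomial ι k₀, Ψ' ≠ 0 ∧
      ∀ (F' k C : Type u) [Field F'] [Field k] [Field C] [Algebra F₁ F'] [Algebra F' k]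
        [Algebra k₀ k] [Algebra F₁ k] [IsScalarTower F₁ F' k] [IsScalarTower F₁ k₀ k]
        [Algebra k C] [Algebra N₀ C] [Algebra F' C] [IsScalarTower F' k C]
        [DecidableEq C] (_ : ∀ c : k₀, algebraMap N₀ C (algebraMap k₀ N₀ c) =
          algebraMap k C (algebraMap k₀ k c)) (a : ι → F'),
        MvPolynomial.aeval a Ψ ≠ 0 → MvPolynomial.aeval (fun e => algebraMap F' k (a e)) Ψ' ≠ 0 →
        ∃ Δ : F'[X][X], GoodDisc Δ ∧
          GoodAt F' (algebraMap k C (∑ e, algebraMap F' k (a e) * algebraMap k₀ k (w e)))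
            (algebraMap k C (algebraMap k₀ k (w j))) Δ (E.image (algebraMap N₀ C)) := by
  have hij' : AlgebraicIndependent F₁ ![algebraMap k₀ N₀ (w i), algebraMap k₀ N₀ (w j)] := by
    have h1 := hij.map' (f := IsScalarTower.toAlgHom F₁ k₀ N₀) (algebraMap k₀ N₀).injective
    convert h1 using 1
    funext x
    fin_cases x <;> rfl
  have hk' : ∀ z : N₀, IsAlgebraic (IntermediateField.adjoin F₁
      {algebraMap k₀ N₀ (w i), algebraMap k₀ N₀ (w j)}) z := by
    intro z
    have h1 : Algebra.IsAlgebraic (IntermediateField.adjoin F₁ {w i, w j}) k₀ := ⟨hk⟩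
    have h2 : Algebra.IsAlgebraic (IntermediateField.adjoin F₁ {w i, w j}) N₀ :=
      Algebra.IsAlgebraic.trans _ k₀ N₀
    refine isAlgebraic_of_range_le (A := IntermediateField.adjoin F₁ {w i, w j}) (fun c => ?_)
      (h2.isAlgebraic z)
    have h3 : IntermediateField.adjoin F₁ {w i, w j} ≤ (IntermediateField.adjoin F₁
        {algebraMap k₀ N₀ (w i), algebraMap k₀ N₀ (w j)}).comap (IsScalarTower.toAlgHom F₁ k₀ N₀) := by
      rw [IntermediateField.adjoin_le_iff]
      rintro z (rfl | hz)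
      · exact IntermediateField.subset_adjoin F₁ _ (Or.inl rfl)
      · rw [Set.mem_singleton_iff.1 hz]
        exact IntermediateField.subset_adjoin F₁ _ (Or.inr rfl)
    exact ⟨⟨_, h3 c.2⟩, rfl⟩
  obtain ⟨Ψ, hΨ, Ψ₁, hΨ₁, h1⟩ := exists_goodAt (w := fun e => algebraMap k₀ N₀ (w e)) (i := i)
    (j := j) (l := l) (by rw [hl, map_one]) hij' hk' E
  obtain ⟨Ψ', hΨ', hdvd⟩ := MvPolynomial.exists_dvd_map_of_isAlgebraic (R := k₀) hΨ₁
  refine ⟨Ψ, hΨ, Ψ', hΨ', ?_⟩
  intro F' k C _ _ _ _ _ _ _ _ _ _ _ _ _ _ hcomp a ha ha'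
  let iC : Algebra F₁ C := ((algebraMap F' C).comp (algebraMap F₁ F')).toAlgebra
  have s1 : IsScalarTower F₁ F' C := IsScalarTower.of_algebraMap_eq fun _ => rfl
  have s2 : IsScalarTower F₁ N₀ C := by
    refine IsScalarTower.of_algebraMap_eq fun c => ?_
    rw [IsScalarTower.algebraMap_apply F₁ k₀ N₀, hcomp, ← IsScalarTower.algebraMap_apply F₁ k₀ k,
      IsScalarTower.algebraMap_apply F₁ F' k, ← IsScalarTower.algebraMap_apply F' k C]
    rfl
  have h2 : MvPolynomial.aeval (fun e => algebraMap F' C (a e)) Ψ₁ ≠ 0 := by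
    intro h3
    obtain ⟨R, hR⟩ := hdvd
    have h4 := congrArg (MvPolynomial.aeval (fun e => algebraMap F' C (a e))) hR
    rw [map_mul, h3, zero_mul, MvPolynomial.aeval_def, MvPolynomial.eval₂_map] at h4
    apply ha'
    apply (algebraMap k C).injective
    rw [map_zero, ← h4, MvPolynomial.aeval_def, MvPolynomial.hom_eval₂]
    congr 1
    · ext c
      rw [RingHom.comp_apply, RingHom.comp_apply, hcomp]
    · funext e
      rw [← IsScalarTower.algebraMap_apply F' k C]
  obtain ⟨⟨Δ, hΔ, hgood⟩, -⟩ := h1 F' C a ha h2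
  refine ⟨Δ, hΔ, ?_⟩
  rw [map_sum, ← hcomp]
  convert hgood using 3 with e
  rw [map_mul, hcomp, ← IsScalarTower.algebraMap_apply F' k C]

end Pool.Agent.TWX
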