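import Pool.Agent.Helper10.TWX.X1
import Pool.Agent.Helper13.TW.FP2
import Pool.Agent.Helper37.TWU.F

/-!
# Project TWX: from a section to a place

As `no_section_place` of `Helper10/TWT/C3`, with a ramified uniformizer; the conclusion is the existence of the place.
-/

universe u

set_option linter.unusedSectionVars false

namespace Pool.Agent.TWX

open VC Polynomial Pool.Agent.LT Pool.Agent.SC Pool.Agent.Helper91.Sect Pool.Agent Pool.Agent.GC
  Pool.Agent.TW Pool.Agent.TWU

/-- **From a section to a place.** -/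
theorem place_core {F k K₀ : Type u} [Field F] [CharZero F] [Field k] [DecidableEq k] [Algebra F k]
    [Field K₀] [Algebra k K₀]
    (hF : ∃ S : Finset F, Subfield.closure (S : Set F) = ⊤)
    (hk : ∃ S : Finset k, Subfield.closure (S : Set k) = ⊤)
    {t : k} (hfin : FiniteDimensional (IntermediateField.adjoin F {t}) k)
    {g x z₀ : K₀} {f : k[X]} {S₀ : Finset k} (hc : Coord g x z₀ f S₀) {v ϖ c₁ : k} {n j : ℕ}
    (hn : 0 < n) (hj : ¬ n ∣ j)
    {K : Type u} [Field K] [Algebra k K] [Algebra K₀ K] [IsScalarTower k K₀ K] {y : K}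
    (hgen : IntermediateField.adjoin K₀ {y} = ⊤)
    (heq : algebraMap k K v * y ^ n = algebraMap K₀ K g)
    (hrat : ∀ z : MM k K, IntermediateField.adjoin (kbar k K) {z} ≠ ⊤)
    {W : ValuationSubring (kbar k K)} (hWtop : W ≠ ⊤)
    (hFW : ∀ c : F, algebraMap k (kbar k K) (algebraMap F k c) ∈ W)
    (hmemU : ∀ a ∈ goodElts f 1 ∪ S₀, algebraMap k (kbar k K) a ∈ W)
    (hϖW : algebraMap k (kbar k K) ϖ ∈ W.nonunits) (hϖ0 : ϖ ≠ 0)
    (hdisc : ∀ z : k, z ≠ 0 → ∃ i : ℤ, W.valuation (algebraMap k (kbar k K) z) =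
        W.valuation (algebraMap k (kbar k K) ϖ) ^ i)
    (hv : v = ϖ ^ j * c₁) (hc₁ : W.valuation (algebraMap k (kbar k K) c₁) = 1)
    (s : GaloisSection k K) :
    ∃ P : ValuationSubring (UU k K), (∀ c : kbar k K, algebraMap (kbar k K) (UU k K) c ∈ P) ∧
      P ≠ ⊤ ∧
      (toU (k := k) (K := K) (algebraMap K₀ K x⁻¹) ∈ P.nonunits ∨ toU (k := k) (K := K) (algebraMap K₀ K (aeval x f)) ∈ P.nonunits) ∧
      ∀ z : K, (toU (k := k) (K := K) z : UU k K) ∈ P → ∃ c : kbar k K,
        toU (k := k) (K := K) z - algebraMap (kbar k K) (UU k K) c ∈ P.nonunits ∧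
        ∀ γ : Gk k K, InDecomp W γ → γ c = c := by
  classical
  have hk0 : CharZero k := charZero_of_injective_algebraMap (algebraMap F k).injective
  let iFK : Algebra F K := ((algebraMap k K).comp (algebraMap F k)).toAlgebra
  have sFK : IsScalarTower F k K := IsScalarTower.of_algebraMap_eq fun _ => rfl
  have hc₁0 : c₁ ≠ 0 := by
    rintro rfl
    rw [map_zero, map_zero] at hc₁
    exact zero_ne_one hc₁
  have hv0 : v ≠ 0 := by
    rw [hv]
    exact mul_ne_zero (pow_ne_zero _ hϖ0) hc₁0
  have hS : CycE n v g x z₀ f S₀ y :=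
    ⟨hn, hv0, hc.g_ne, hc.ff, hc.x_tr, hc.gen₀, hgen, heq, hc.deg, hc.sep, hc.good⟩
  obtain ⟨hgr, -, -⟩ := goodRed_of_goodElts (c := (1 : k)) (by have := hc.deg; omega) hc.sep one_ne_zero
    (fun a ha => hmemU a (Finset.mem_union_left _ ha))
  obtain ⟨P, hP, hP1, hPst, hPB⟩ := hS.place_of_bad (k₁ := F) s hk hrat hF t hfin hWtop
    (fun c => hFW c) hgr (fun a ha => hmemU a (Finset.mem_union_right _ ha)) hϖW hϖ0 hdisc
    hv hj ((W.valuation_le_one_iff _).1 hc₁.le) (by
      rw [ValuationSubring.mem_nonunits_iff, hc₁]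
      exact lt_irrefl _)
  refine ⟨P, hP, hP1, ?_, ?_⟩
  · rcases hPB with h | ⟨b, hb, hxb⟩
    · left
      rw [map_inv₀, map_inv₀, ValuationSubring.inv_mem_nonunits_iff]
      exact Or.inr h
    · right
      have h1 := aeval_sub_mem P hP hxb (f.map (algebraMap k (kbar k K)))
      have h2 : (f.map (algebraMap k (kbar k K))).eval b = 0 := by
        unfold rootsB at hb
        rw [Multiset.mem_toFinset] at hb
        exact (mem_roots'.1 hb).2
      rw [h2, map_zero, sub_zero] at h1
      have h3 : toU (k := k) (K := K) (algebraMap K₀ K (aeval x f)) =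
          aeval (toU (k := k) (K := K) (algebraMap K₀ K x) : UU k K) (f.map (algebraMap k (kbar k K))) := by
        rw [aeval_def, hom_eval₂, hom_eval₂, aeval_def, eval₂_map]
        congr 1
        refine RingHom.ext fun c => ?_
        change toU (k := k) (K := K) (algebraMap K₀ K (algebraMap k K₀ c)) = _
        rw [← IsScalarTower.algebraMap_apply]
        rfl
      rw [h3]
      exact h1
  · let V : ValuationSubring (Kur k K) :=
      P.comap ((eU k K : Kur k K ≃+* UU k K) : Kur k K →+* UU k K)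
    have hV : ∀ w : Kur k K, w ∈ V ↔ eU k K w ∈ P := fun w => Iff.rfl
    have hVt : V ≠ ⊤ := by
      intro h
      apply hP1
      rw [eq_top_iff]
      intro z _
      have h2 : (eU k K).symm z ∈ V := by rw [h]; trivial
      rwa [hV, RingEquiv.apply_symm_apply] at h2
    intro z hz
    obtain ⟨c, hc1, hc2⟩ := exists_residue_fixed s hS.isFunctionField hVt (fun c => hP c) (z := z) hz
    refine ⟨c, ?_, fun γ hγ => hc2 γ fun w => ?_⟩
    · rw [← ValuationSubring.mem_nonunits_iff] at hc1
      rw [ValuationSubring.mem_nonunits_iff_or] at hc1 ⊢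
      rcases hc1 with h | h
      · left
        exact congrArg (eU k K) h
      · right
        intro h3
        apply h
        rw [hV, map_inv₀]
        exact h3
    · rw [hV, hV, ← hPst γ hγ (eU k K w)]
      have h4 : eU k K (s.toHom γ w) = actU s γ (eU k K w) := by
        apply Subtype.ext
        rw [coe_actU]
        rfl
      rw [h4]

end Pool.Agent.TWX
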