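import Pool.Agent.Helper10.TWX.X3

/-!
# Project TWX: the residues at the place, part 2
-/

universe u

set_option linter.unusedSectionVars false

namespace Pool.Agent.TWX

open VC Polynomial Pool.Agent.LT Pool.Agent.SC Pool.Agent.Helper91.Sect Pool.Agent Pool.Agent.GC
  Pool.Agent.TW Pool.Agent.TWU

theorem nonunits_comap_iff {A B : Type*} [Field A] [Field B] (P : ValuationSubring B) (φ : A →+* B)
    (z : A) : z ∈ (P.comap φ).nonunits ↔ φ z ∈ P.nonunits := by
  rw [ValuationSubring.mem_nonunits_iff_or, ValuationSubring.mem_nonunits_iff_or,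
    ValuationSubring.mem_comap, map_inv₀, map_eq_zero]

theorem const_eq_zero {C U : Type*} [Field C] [Field U] [Algebra C U] {P : ValuationSubring U}
    (hP : ∀ c : C, algebraMap C U c ∈ P) {c : C} (hc : algebraMap C U c ∈ P.nonunits) : c = 0 := by
  rcases (ValuationSubring.mem_nonunits_iff_or _).1 hc with h | h
  · rwa [map_eq_zero] at h
  · exfalso
    apply h
    rw [← map_inv₀]
    exact hP _

theorem const_val {C U : Type*} [Field C] [Field U] [Algebra C U] {P : ValuationSubring U}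
    (hP : ∀ c : C, algebraMap C U c ∈ P) {c : C} (hc : c ≠ 0) :
    P.valuation (algebraMap C U c) = 1 := by
  have h1 := (P.valuation_le_one_iff _).2 (hP c)
  have h2 := (P.valuation_le_one_iff _).2 (hP c⁻¹)
  rw [map_inv₀, map_inv₀] at h2
  have h3 : P.valuation (algebraMap C U c) ≠ 0 :=
    (Valuation.ne_zero_iff _).2 ((_root_.map_ne_zero _).2 hc)
  exact le_antisymm h1 ((inv_le_one₀ (zero_lt_iff.2 h3)).1 h2)

/-- residues of polynomials -/
theorem eval_residue {A C U : Type*} [Field A] [Field C] [Field U] [Algebra C U] {P : ValuationSubring U}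
    (hP : ∀ c : C, algebraMap C U c ∈ P) (ψ : A →+* C) {z : U} {c : C}
    (hz : z - algebraMap C U c ∈ P.nonunits) (p : A[X]) :
    eval₂ ((algebraMap C U).comp ψ) z p - algebraMap C U (eval₂ ψ c p) ∈ P.nonunits := by
  have h1 := aeval_sub_mem P hP hz (p.map ψ)
  rwa [eval_map, aeval_def, eval₂_map] at h1

theorem eval_nonunit_iff {A C U : Type*} [Field A] [Field C] [Field U] [Algebra C U]
    {P : ValuationSubring U} (hP : ∀ c : C, algebraMap C U c ∈ P) (ψ : A →+* C) {z : U} {c : C}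
    (hz : z - algebraMap C U c ∈ P.nonunits) (p : A[X]) :
    eval₂ ((algebraMap C U).comp ψ) z p ∈ P.nonunits ↔ eval₂ ψ c p = 0 := by
  have h1 := eval_residue hP ψ hz p
  constructor
  · intro h
    apply const_eq_zero hP
    have h2 := nonunit_sub h h1
    rwa [sub_sub_cancel] at h2
  · intro h
    rwa [h, map_zero, sub_zero] at h1

section resid

variable {k₀ K₀ : Type u} [Field k₀] [CharZero k₀] [Field K₀] [Algebra k₀ K₀]
  {k K₁ : Type u} [Field k] [Field K₁] [Algebra k₀ k] [Algebra k K₁] [Algebra K₀ K₁] [Algebra k₀ K₁]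
  [IsScalarTower k₀ k K₁] [IsScalarTower k₀ K₀ K₁]
  {C U : Type u} [Field C] [Field U] [Algebra C U]

/-- The place of `K₁` below `P`. -/
theorem resid_data (hF₀ : IsFunctionField k₀ K₀) {g : K₀} (hg : g ≠ 0) {P₀ : Place k₀ K₀}
    {θ π : K₀} {q p : k₀[X]} (hd : PData g P₀ θ π q p) (hF₁ : IsFunctionField k K₁)
    (hgen₁ : IntermediateField.adjoin k (Set.range (algebraMap K₀ K₁)) = ⊤)
    (ψ : k →+* C) (φ : K₁ →+* U) (hφ : ∀ a : k, φ (algebraMap k K₁ a) = algebraMap C U (ψ a))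
    {P : ValuationSubring U} (hP : ∀ c : C, algebraMap C U c ∈ P)
    (hP₀ : ∀ z : K₀, φ (algebraMap K₀ K₁ z) ∈ P ↔ z ∈ P₀.ring) {c : C}
    (hc : φ (algebraMap K₀ K₁ θ) - algebraMap C U c ∈ P.nonunits) {n : ℕ} (hn : 0 < n) :
    P.comap φ ≠ ⊤ ∧ (∀ a : k, algebraMap k K₁ a ∈ P.comap φ) ∧
      (∃ r : k[X], Irreducible r ∧ eval₂ ψ c r = 0 ∧ HasDeg k (P.comap φ) r.natDegree) ∧
      eval₂ (ψ.comp (algebraMap k₀ k)) c q = 0 ∧
      OrdGcd (P.comap φ) (algebraMap K₀ K₁ g) n (Int.gcd n (ord P₀.ring g)) := by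
  have hk : CharZero k := charZero_of_injective_algebraMap (algebraMap k₀ k).injective
  have hφ' : φ.comp (algebraMap k K₁) = (algebraMap C U).comp ψ := RingHom.ext hφ
  have hnon₀ : ∀ z : K₀, φ (algebraMap K₀ K₁ z) ∈ P.nonunits ↔ z ∈ P₀.ring.nonunits := by
    intro z
    rw [ValuationSubring.mem_nonunits_iff_or, ValuationSubring.mem_nonunits_iff_or, map_eq_zero,
      map_eq_zero, ← map_inv₀, ← map_inv₀, hP₀]
  have hne : P.comap φ ≠ ⊤ := by
    intro h
    have h1 : (algebraMap K₀ K₁ π)⁻¹ ∈ P.comap φ := by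
      rw [h]
      trivial
    have h2 : π ∈ P₀.ring.nonunits := (nonunit_iff_ord hF₀ P₀ hd.hπ0).2 (by rw [hd.hπ1]; exact one_pos)
    rw [← hnon₀, ValuationSubring.mem_nonunits_iff_or] at h2
    rcases h2 with h2 | h2
    · rw [map_eq_zero, map_eq_zero] at h2
      exact hd.hπ0 h2
    · apply h2
      rw [← map_inv₀]
      exact h1
  have hmem : ∀ a : k, algebraMap k K₁ a ∈ P.comap φ := by
    intro a
    rw [ValuationSubring.mem_comap, hφ]
    exact hP _
  let O : Place k K₁ := ⟨P.comap φ, hmem, hne⟩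
  have hO : ∀ z : K₀, algebraMap K₀ K₁ z ∈ O.ring ↔ z ∈ P₀.ring := hP₀
  have hOn : ∀ z : K₁, z ∈ O.ring.nonunits ↔ φ z ∈ P.nonunits := nonunits_comap_iff P φ
  -- polynomials in the residue of `θ`
  have hval : ∀ h : k[X], aeval (algebraMap K₀ K₁ θ) h ∈ O.ring.nonunits ↔ eval₂ ψ c h = 0 := by
    intro h
    rw [hOn, aeval_def, hom_eval₂, hφ']
    exact eval_nonunit_iff hP ψ hc h
  have hq : eval₂ (ψ.comp (algebraMap k₀ k)) c q = 0 := by
    rw [← eval₂_map, ← hval, ← aeval_alg, hOn, hnon₀]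
    exact hd.hqθ
  have hint : ∃ r : k[X], Irreducible r ∧ eval₂ ψ c r = 0 := by
    let i : Algebra k C := ψ.toAlgebra
    have h1 : IsAlgebraic k c := ⟨q.map (algebraMap k₀ k),
      (Polynomial.map_ne_zero_iff (algebraMap k₀ k).injective).2 hd.hq.ne_zero, by
        rw [aeval_def, eval₂_map]
        exact hq⟩
    exact ⟨minpoly k c, minpoly.irreducible h1.isIntegral, minpoly.aeval k c⟩
  obtain ⟨r, hr, hrc⟩ := hint
  have hrθ : aeval (algebraMap K₀ K₁ θ) r ∈ O.ring.nonunits := (hval r).2 hrc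
  refine ⟨hne, hmem, ⟨r, hr, hrc, algebraMap K₀ K₁ θ, (hO θ).2 hd.hθ, r, hr, rfl, hrθ, ?_⟩, hq, ?_⟩
  · exact residueG hF₀ hF₁ hgen₁ hO hd.hθ hd.hq hd.hqθ hd.hall hr hrθ
  · have h1 := ordGcd_iff hF₁ ((_root_.map_ne_zero (algebraMap K₀ K₁)).2 hg) hn O
    have hπ0' : algebraMap K₀ K₁ π ≠ 0 := (_root_.map_ne_zero _).2 hd.hπ0
    have hπ' := ord_unifG hF₀ hF₁ hgen₁ hO hd.hθ hd.hq hd.hqθ hd.hall hr hrθ hd.hπ0 hd.hπ1
    have h2 : ord O.ring (algebraMap K₀ K₁ g) = ord P₀.ring g := by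
      set m := ord P₀.ring g with hm
      set ε : K₀ := g * π ^ (-m) with hε
      have hε0 : ε ≠ 0 := mul_ne_zero hg (zpow_ne_zero _ hd.hπ0)
      have hεord : ord P₀.ring ε = 0 := by
        rw [hε, ord_mul' hF₀ P₀ hg (zpow_ne_zero _ hd.hπ0), ord_zpow' hF₀ P₀ hd.hπ0, hd.hπ1]
        omega
      have hεP : ε ∈ P₀.ring := (mem_iff_ord hF₀ P₀ hε0).2 hεord.ge
      have hεn : ε ∉ P₀.ring.nonunits := fun h => by
        have h1 := (nonunit_iff_ord hF₀ P₀ hε0).1 h
        omega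
      have hε' : algebraMap K₀ K₁ ε ≠ 0 := (_root_.map_ne_zero _).2 hε0
      have hεO : ord O.ring (algebraMap K₀ K₁ ε) = 0 := by
        have h1 := (mem_iff_ord hF₁ O hε').1 ((hO ε).2 hεP)
        have h2 := mt (nonunit_iff_ord hF₁ O hε').2 (mt (fun h => (hnon₀ ε).1 ((hOn _).1 h)) hεn)
        omega
      have h1 : algebraMap K₀ K₁ g = algebraMap K₀ K₁ ε * algebraMap K₀ K₁ π ^ m := by
        rw [← map_zpow₀, ← map_mul, hε, mul_assoc, ← zpow_add₀ hd.hπ0, neg_add_cancel, zpow_zero,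
          mul_one]
      rw [h1, ord_mul' hF₁ O hε' (zpow_ne_zero _ hπ0'), ord_zpow' hF₁ O hπ0', hεO, hπ']
      ring
    rw [h2] at h1
    exact h1

end resid

end Pool.Agent.TWX
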