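import Pool.Agent.Helper10.TWX.X4

/-!
# Project TWX: the residues at the place, part 3
-/

universe u

set_option linter.unusedSectionVars false

namespace Pool.Agent.TWX

open VC Polynomial Pool.Agent.LT Pool.Agent.SC Pool.Agent.Helper91.Sect Pool.Agent Pool.Agent.GC
  Pool.Agent.TW Pool.Agent.TWU

/-- The residue of the function `y ^ (n / δ) u`. -/
theorem rho_data {k₀ K₀ : Type u} [Field k₀] [CharZero k₀] [Field K₀] [Algebra k₀ K₀]
    (hF₀ : IsFunctionField k₀ K₀) {g : K₀} (hg : g ≠ 0) {P₀ : Place k₀ K₀}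
    {θ π : K₀} {q p : k₀[X]} (hd : PData g P₀ θ π q p)
    {K C U : Type u} [Field K] [Field C] [Field U] [Algebra C U] (χ : K₀ →+* K) (μ : K →+* U)
    (ψ₀ : k₀ →+* C) (hψ₀ : ∀ a : k₀, μ (χ (algebraMap k₀ K₀ a)) = algebraMap C U (ψ₀ a))
    {P : ValuationSubring U} (hP : ∀ c : C, algebraMap C U c ∈ P)
    (hP₀ : ∀ z : K₀, μ (χ z) ∈ P ↔ z ∈ P₀.ring) {n : ℕ} (hn : 0 < n) {A : K} {a : C} (ha0 : a ≠ 0)
    (hA : μ A = algebraMap C U a) {y : K} (heq : A * y ^ n = χ g) {Q : C → Prop}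
    (hres : ∀ z : K, μ z ∈ P → ∃ c : C, μ z - algebraMap C U c ∈ P.nonunits ∧ Q c) :
    ∃ ρ : C, Q ρ ∧ eval₂ ψ₀ (ρ ^ Int.gcd n (ord P₀.ring g) * a) p = 0 := by
  have hnon₀ : ∀ z : K₀, μ (χ z) ∈ P.nonunits ↔ z ∈ P₀.ring.nonunits := by
    intro z
    rw [ValuationSubring.mem_nonunits_iff_or, ValuationSubring.mem_nonunits_iff_or, map_eq_zero,
      map_eq_zero, ← map_inv₀, ← map_inv₀, hP₀]
  set m := ord P₀.ring g with hm
  set δ := Int.gcd n m with hδ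
  have hδpos : 0 < δ := Int.gcd_pos_of_ne_zero_left m (by exact_mod_cast hn.ne')
  obtain ⟨e, he⟩ : δ ∣ n := Int.natCast_dvd_natCast.1 (Int.gcd_dvd_left ..)
  obtain ⟨m', hm'⟩ : (δ : ℤ) ∣ m := Int.gcd_dvd_right ..
  set ε : K₀ := g * π ^ (-m) with hε
  have hε0 : ε ≠ 0 := mul_ne_zero hg (zpow_ne_zero _ hd.hπ0)
  have hεord : ord P₀.ring ε = 0 := by
    rw [hε, ord_mul' hF₀ P₀ hg (zpow_ne_zero _ hd.hπ0), ord_zpow' hF₀ P₀ hd.hπ0, hd.hπ1]
    omega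
  have hεP : ε ∈ P₀.ring := (mem_iff_ord hF₀ P₀ hε0).2 hεord.ge
  have hεn : ε ∉ P₀.ring.nonunits := fun h => by
    have h1 := (nonunit_iff_ord hF₀ P₀ hε0).1 h
    omega
  set Y : K := y ^ e * χ π ^ (-m') with hY
  have hYn : A * Y ^ δ = χ ε := by
    rw [hY, mul_pow, ← pow_mul, mul_comm e δ, ← he, ← mul_assoc, heq, hε, map_mul, map_zpow₀]
    congr 1
    rw [← zpow_natCast, ← zpow_mul, hm']
    congr 1
    ring
  have hYn' : algebraMap C U a * μ Y ^ δ = μ (χ ε) := by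
    rw [← hYn, map_mul μ A, map_pow μ Y, hA]
  have hεv : P.valuation (μ (χ ε)) = 1 := by
    refine le_antisymm ((P.valuation_le_one_iff _).2 ((hP₀ ε).2 hεP)) ?_
    have h1 := mt (hnon₀ ε).1 hεn
    rw [ValuationSubring.mem_nonunits_iff, not_lt] at h1
    exact h1
  have hYv : P.valuation (μ Y) = 1 := by
    have h1 := congrArg P.valuation hYn'
    rw [map_mul, const_val hP ha0, one_mul, map_pow, hεv] at h1
    exact (pow_eq_one_iff_of_nonneg zero_le hδpos.ne').1 h1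
  obtain ⟨ρ, hρ1, hρ2⟩ := hres Y ((P.valuation_le_one_iff _).1 hYv.le)
  refine ⟨ρ, hρ2, ?_⟩
  have h1 := aeval_sub_mem P hP hρ1 (Polynomial.C a * X ^ δ : C[X])
  rw [map_mul, aeval_C, map_pow (aeval (μ Y)) X, aeval_X, eval_mul, eval_C, eval_pow, eval_X, hYn',
    mul_comm a] at h1
  rw [← eval_nonunit_iff hP ψ₀ h1]
  have h2 := (hnon₀ _).2 hd.hpε
  rw [aeval_def, hom_eval₂, hom_eval₂] at h2
  have h3 : (μ.comp (χ.comp (algebraMap k₀ K₀))) = (algebraMap C U).comp ψ₀ := RingHom.ext hψ₀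
  rw [h3] at h2
  exact h2

end Pool.Agent.TWX
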