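import Pool.Agent.SC.Cov
import Pool.Agent.SC.DefsP
import Pool.Agent.SC.H1
import Pool.Agent.Helper91.Section.SE.Iner
import Pool.Agent.Helper91.Section.Tame2

/-!
# Project TWX: values of the elements fixed by inertia, and uniformizers of finite extensions
-/

universe u

set_option linter.unusedSectionVars false

namespace Pool.Agent.TWX

open Polynomial Pool.Agent.SC Pool.Agent.Helper91.Sect Pool.Agent

theorem pow_inj_val {Γ : Type*} [LinearOrderedCommGroupWithZero Γ] {a b : Γ} {n : ℕ} (hn : n ≠ 0)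
    (h : a ^ n = b ^ n) : a = b :=
  (pow_left_inj₀ zero_le zero_le hn).1 h

section vals

variable {k C : Type u} [Field k] [CharZero k] [Field C] [Algebra k C]

/-- elements algebraic over a field contained in `W` are in `W` -/
theorem mem_of_alg {F : Type*} [Field F] [Algebra F C] {W : ValuationSubring C}
    (hF : ∀ c : F, algebraMap F C c ∈ W) {z : C} (hz : IsAlgebraic F z) : z ∈ W := by
  obtain ⟨p, hp, hp0⟩ := hz.isIntegral
  let f : F →+* W := (algebraMap F C).codRestrict W.toSubring hF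
  have h2 : IsIntegral W z := by
    refine ⟨p.map f, hp.map f, ?_⟩
    rw [Polynomial.eval₂_map]
    exact hp0
  obtain ⟨w, hw⟩ := IsIntegrallyClosed.algebraMap_eq_of_integral h2
  rw [← hw]
  exact w.2

theorem val_of_alg {F : Type*} [Field F] [Algebra F C] {W : ValuationSubring C}
    (hF : ∀ c : F, algebraMap F C c ∈ W) {z : C} (hz : IsAlgebraic F z) (hz0 : z ≠ 0) :
    W.valuation z = 1 := by
  have h1 := (W.valuation_le_one_iff _).2 (mem_of_alg hF hz)
  have h2 := (W.valuation_le_one_iff _).2 (mem_of_alg hF hz.inv)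
  rw [map_inv₀] at h2
  have h3 : W.valuation z ≠ 0 := (Valuation.ne_zero_iff _).2 hz0
  exact le_antisymm h1 ((inv_le_one₀ (zero_lt_iff.2 h3)).1 h2)

/-- the values of the trace of `W` on `k` -/
theorem val_comap_iff (W : ValuationSubring C) {a b : k} (hb : b ≠ 0) :
    (W.comap (algebraMap k C)).valuation a = (W.comap (algebraMap k C)).valuation b ↔
    W.valuation (algebraMap k C a) = W.valuation (algebraMap k C b) := by
  set O : ValuationSubring k := W.comap (algebraMap k C) with hO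
  have key : ∀ a b : k, b ≠ 0 → (O.valuation a ≤ O.valuation b ↔
      W.valuation (algebraMap k C a) ≤ W.valuation (algebraMap k C b)) := by
    intro a b hb
    have h1 : O.valuation b ≠ 0 := (Valuation.ne_zero_iff _).2 hb
    have h2 : W.valuation (algebraMap k C b) ≠ 0 :=
      (Valuation.ne_zero_iff _).2 ((_root_.map_ne_zero _).2 hb)
    rw [← div_le_one₀ (zero_lt_iff.2 h1), ← div_le_one₀ (zero_lt_iff.2 h2), ← map_div₀,
      ← map_div₀, ← map_div₀, O.valuation_le_one_iff, W.valuation_le_one_iff]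
    exact Iff.rfl
  rcases eq_or_ne a 0 with rfl | ha
  · rw [map_zero, map_zero, map_zero, eq_comm, Valuation.zero_iff, eq_comm (a := (0 : W.ValueGroup)),
      Valuation.zero_iff, map_eq_zero]
  · constructor
    · intro h
      exact le_antisymm ((key a b hb).1 h.le) ((key b a ha).1 h.ge)
    · intro h
      exact le_antisymm ((key a b hb).2 h.le) ((key b a ha).2 h.ge)

/-- the inertia group of the centre of `W` is the inertia group of `W` -/
theorem inInert_of_cen [Algebra.IsAlgebraic k C] [IsGalois k C] [IsAlgClosed C]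
    {W : ValuationSubring C} {τ : C ≃ₐ[k] C} (hτ : InI (H1.cen k W) τ) : InInert W τ := by
  have hV : ∀ c ∈ W.comap (algebraMap k C), algebraMap k C c ∈ W := fun c hc => hc
  have h1 : H1.cen k W = cenV W hV := by
    ext b
    rw [H1.mem_cen, mem_cenV, ValuationSubring.mem_nonunits_iff]
  have h2 : locW (H1.cen k W) = W := by
    ext z
    have h3 := mem_iff_locW hV z
    have h4 : z ∈ locW (H1.cen k W) ↔ z ∈ locW (cenV W hV) := by
      rw [mem_locW, mem_locW]
      constructor
      · rintro ⟨b, hb, hb'⟩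
        exact ⟨b, by rwa [← h1], hb'⟩
      · rintro ⟨b, hb, hb'⟩
        exact ⟨b, by rwa [h1], hb'⟩
    exact h4.trans h3
  have h5 : ∀ z, τ z ∈ locW (H1.cen k W) ↔ z ∈ locW (H1.cen k W) := stab_locW (H1.cen k W) hτ.1
  have h6 : ∀ z, (locW (H1.cen k W)).valuation z ≤ 1 → (locW (H1.cen k W)).valuation (τ z - z) < 1 :=
    fun z hz => val_inertia (H1.cen k W) hτ hz
  rw [h2] at h5 h6
  refine ⟨h5, fun z hz => ?_⟩
  rw [ValuationSubring.mem_nonunits_iff]
  exact h6 z ((W.valuation_le_one_iff z).2 hz)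

theorem zpow_val_ne_one {Γ : Type*} [LinearOrderedCommGroupWithZero Γ] {a : Γ} (h0 : a ≠ 0)
    (h1 : a < 1) {i l : ℤ} (h : a ^ i = a ^ l) : i = l :=
  zpow_right_injective₀ (zero_lt_iff.2 h0) h1.ne h

/-- **The value of an element which is fixed by the inertia group is a value of `k`.** -/
theorem val_of_fixed [Algebra.IsAlgebraic k C] [IsGalois k C] [IsAlgClosed C] {F : Type u} [Field F]
    [CharZero F] [Algebra F C] {W : ValuationSubring C} (hF : ∀ c : F, algebraMap F C c ∈ W)
    {v : k} (hv : algebraMap k C v ∈ W.nonunits) (hv0 : v ≠ 0)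
    (hdisc : ∀ z : k, z ≠ 0 → ∃ i : ℤ, W.valuation (algebraMap k C z) =
      W.valuation (algebraMap k C v) ^ i) {z : C} (hz : z ≠ 0)
    (hfix : ∀ τ : C ≃ₐ[k] C, InInert W τ → τ z = z) :
    ∃ i : ℤ, W.valuation z = W.valuation (algebraMap k C v) ^ i := by
  classical
  have hvW : W.valuation (algebraMap k C v) < 1 := (ValuationSubring.mem_nonunits_iff _).1 hv
  have hv0' : algebraMap k C v ≠ 0 := (_root_.map_ne_zero _).2 hv0
  have hv0W : W.valuation (algebraMap k C v) ≠ 0 := (Valuation.ne_zero_iff _).2 hv0'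
  have hex : ∃ m : ℕ, 0 < m ∧ ∃ i : ℤ, W.valuation z ^ m = W.valuation (algebraMap k C v) ^ i := by
    obtain ⟨α, hα, hval⟩ := exists_pow_val W.valuation hz
      (Algebra.IsIntegral.isIntegral (R := k) z) le_rfl
    obtain ⟨i, hi⟩ := hdisc α hα
    exact ⟨_, Nat.factorial_pos _, i, by rw [← map_pow, hval, hi]⟩
  set m := Nat.find hex with hm
  obtain ⟨hmpos, i, hi⟩ := Nat.find_spec hex
  rw [← hm] at hmpos hi
  by_cases hm1 : m = 1
  · exact ⟨i, by rw [← hi, hm1, pow_one]⟩
  exfalso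
  obtain ⟨p, hp, m', hpm⟩ := Nat.exists_prime_and_dvd hm1
  have hm'pos : 0 < m' := by
    rcases Nat.eq_zero_or_pos m' with h | h
    · rw [h, mul_zero] at hpm
      omega
    · exact h
  have hm'lt : m' < m := by
    rw [hpm]
    exact lt_mul_of_one_lt_left hm'pos hp.one_lt
  have hpi : ¬ (p : ℤ) ∣ i := by
    rintro ⟨i', hi'⟩
    apply Nat.find_min hex hm'lt
    refine ⟨hm'pos, i', pow_inj_val hp.ne_zero ?_⟩
    rw [← pow_mul, mul_comm m' p, ← hpm, hi, hi', ← zpow_natCast, ← zpow_mul, mul_comm]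
  -- a root
  obtain ⟨w, hw⟩ := IsAlgClosed.exists_pow_nat_eq (algebraMap k C (v ^ i)) hp.pos
  have hodd : ∀ d : k, (W.comap (algebraMap k C)).valuation (v ^ i) ≠
      (W.comap (algebraMap k C)).valuation d ^ p := by
    intro d hd
    have hd0 : d ≠ 0 := by
      rintro rfl
      rw [map_zero, zero_pow hp.ne_zero, Valuation.zero_iff] at hd
      exact zpow_ne_zero _ hv0 hd
    rw [← map_pow] at hd
    have h1 := (val_comap_iff W (pow_ne_zero p hd0)).1 hd
    rw [map_zpow₀, map_zpow₀, map_pow, map_pow] at h1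
    obtain ⟨l, hl⟩ := hdisc d hd0
    rw [hl, ← zpow_natCast, ← zpow_mul] at h1
    have h2 := zpow_val_ne_one hv0W hvW h1
    exact hpi ⟨l, by rw [h2, mul_comm]⟩
  have : NeZero (p : C) := by
    have hc0 : CharZero C := charZero_of_injective_algebraMap (algebraMap k C).injective
    exact ⟨by exact_mod_cast hp.ne_zero⟩
  obtain ⟨ζ, hζ⟩ := HasEnoughRootsOfUnity.exists_primitiveRoot C p
  obtain ⟨τ, hτI, hτw⟩ := Pool.Agent.Helper91.SE.exists_inertia_ne (H1.cen k W) (H1.above_cen W) hp hodd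
    hw hζ
  have hτ : InInert W τ := inInert_of_cen hτI
  have hw0 : w ≠ 0 := by
    rintro rfl
    rw [zero_pow hp.ne_zero, eq_comm, map_eq_zero] at hw
    exact zpow_ne_zero _ hv0 hw
  have hτw0 : τ w ≠ 0 := (map_ne_zero_iff τ τ.injective).2 hw0
  -- the unit `z ^ m' / w`
  set y : C := z ^ m' / w with hy
  have hyv : W.valuation y = 1 := by
    refine pow_inj_val hp.ne_zero ?_
    rw [one_pow, hy, map_div₀, div_pow, ← map_pow, ← map_pow, hw, ← pow_mul, mul_comm m' p, ← hpm,
      map_pow, hi, map_zpow₀, map_zpow₀]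
    exact div_self (zpow_ne_zero _ hv0W)
  have hroot : (w / τ w) ^ p = 1 := by
    rw [div_pow, ← map_pow, hw, AlgEquiv.commutes, ← hw]
    exact div_self (pow_ne_zero _ hw0)
  have hne : w / τ w - 1 ≠ 0 := by
    intro h
    rw [sub_eq_zero, div_eq_one_iff_eq hτw0] at h
    exact hτw h.symm
  have hal : IsAlgebraic F (w / τ w - 1) := by
    have h1 : IsIntegral F (w / τ w) := IsIntegral.of_pow hp.pos (by
      rw [hroot]
      exact isIntegral_one)
    exact (h1.sub isIntegral_one).isAlgebraic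
  have h1 := hτ.2 y ((W.valuation_le_one_iff _).1 hyv.le)
  rw [ValuationSubring.mem_nonunits_iff] at h1
  have h2 : τ y - y = y * (w / τ w - 1) := by
    rw [hy, map_div₀, map_pow, hfix τ hτ]
    field_simp
  rw [h2, map_mul, hyv, one_mul, val_of_alg hF hal hne] at h1
  exact lt_irrefl _ h1

end vals

/-- **Uniformizers of finite extensions.** -/
theorem exists_unif_ext {k k' C : Type u} [Field k] [Field k'] [Field C] [Algebra k k']
    [Algebra k' C] [FiniteDimensional k k'] {W : ValuationSubring C}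
    {v : k} (hv : algebraMap k' C (algebraMap k k' v) ∈ W.nonunits) (hv0 : v ≠ 0)
    (hdisc : ∀ z : k, z ≠ 0 → ∃ i : ℤ, W.valuation (algebraMap k' C (algebraMap k k' z)) =
      W.valuation (algebraMap k' C (algebraMap k k' v)) ^ i) :
    ∃ ϖ : k', ϖ ≠ 0 ∧ algebraMap k' C ϖ ∈ W.nonunits ∧
      (∀ z : k', z ≠ 0 → ∃ i : ℤ, W.valuation (algebraMap k' C z) =
        W.valuation (algebraMap k' C ϖ) ^ i) ∧
      ∃ e : ℕ, W.valuation (algebraMap k' C (algebraMap k k' v)) =
        W.valuation (algebraMap k' C ϖ) ^ e := by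
  classical
  have hv0' : algebraMap k' C (algebraMap k k' v) ≠ 0 :=
    (_root_.map_ne_zero _).2 ((_root_.map_ne_zero _).2 hv0)
  set ω := W.valuation (algebraMap k' C (algebraMap k k' v)) with hω
  have hω1 : ω < 1 := (ValuationSubring.mem_nonunits_iff _).1 hv
  have hω0 : ω ≠ 0 := (Valuation.ne_zero_iff _).2 hv0'
  set N := (Module.finrank k k').factorial with hN
  have hN0 : N ≠ 0 := Nat.factorial_ne_zero _
  have hpow : ∀ z : k', z ≠ 0 → ∃ i : ℤ, W.valuation (algebraMap k' C z) ^ N = ω ^ i := by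
    intro z hz
    obtain ⟨α, hα, hval⟩ := exists_pow_val (k := k) (W.valuation.comap (algebraMap k' C)) hz
      (Algebra.IsIntegral.isIntegral (R := k) z) (n := Module.finrank k k')
      (minpoly.natDegree_le z)
    obtain ⟨i, hi⟩ := hdisc α hα
    refine ⟨i, ?_⟩
    rw [← hi]
    rw [map_pow] at hval
    exact hval
  have hex : ∃ m : ℕ, 0 < m ∧ ∃ z : k', z ≠ 0 ∧ W.valuation (algebraMap k' C z) ^ N = ω ^ (m : ℤ) := by
    refine ⟨N, Nat.pos_of_ne_zero hN0, algebraMap k k' v, (_root_.map_ne_zero _).2 hv0, ?_⟩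
    rw [zpow_natCast]
  set m := Nat.find hex with hm
  obtain ⟨hmpos, ϖ, hϖ0, hϖ⟩ := Nat.find_spec hex
  rw [← hm] at hmpos hϖ
  have hϖ0' : algebraMap k' C ϖ ≠ 0 := (_root_.map_ne_zero _).2 hϖ0
  have hϖv0 : W.valuation (algebraMap k' C ϖ) ≠ 0 := (Valuation.ne_zero_iff _).2 hϖ0'
  have hϖ1 : W.valuation (algebraMap k' C ϖ) < 1 := by
    by_contra hcon
    rw [not_lt] at hcon
    have h1 : 1 ≤ W.valuation (algebraMap k' C ϖ) ^ N := one_le_pow₀ hcon
    rw [hϖ, zpow_natCast] at h1
    exact absurd (pow_lt_one₀ zero_le hω1 hmpos.ne') (not_lt.2 h1)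
  have hall : ∀ z : k', z ≠ 0 → ∃ i : ℤ, W.valuation (algebraMap k' C z) =
      W.valuation (algebraMap k' C ϖ) ^ i := by
    intro z hz
    obtain ⟨i, hi⟩ := hpow z hz
    have hm0 : (m : ℤ) ≠ 0 := by exact_mod_cast hmpos.ne'
    have hr0 : 0 ≤ i % m := Int.emod_nonneg i hm0
    have hr1 : i % m < m := Int.emod_lt_of_pos i (by exact_mod_cast hmpos)
    have hr : i % m = 0 := by
      by_contra hne
      obtain ⟨r, hr⟩ := Int.eq_ofNat_of_zero_le hr0
      have hrm : r < m := by
        rw [hr] at hr1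
        exact_mod_cast hr1
      apply Nat.find_min hex hrm
      refine ⟨Nat.pos_of_ne_zero ?_, z * ϖ ^ (-(i / m)), mul_ne_zero hz (zpow_ne_zero _ hϖ0), ?_⟩
      · rintro rfl
        exact hne hr
      · rw [map_mul, map_mul, map_zpow₀, map_zpow₀, mul_pow, hi, ← zpow_natCast (_ ^ (-(i / m))),
          ← zpow_mul, mul_comm (-(i / (m : ℤ))), zpow_mul, zpow_natCast, hϖ, ← zpow_mul,
          ← zpow_add₀ hω0, ← hr]
        congr 1
        have := Int.emod_add_mul_ediv i m
        linarith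
    refine ⟨i / m, pow_inj_val hN0 ?_⟩
    rw [hi, ← zpow_natCast, ← zpow_mul, mul_comm (i / (m : ℤ)), zpow_mul, zpow_natCast, hϖ,
      ← zpow_mul]
    congr 1
    have := Int.emod_add_mul_ediv i m
    linarith
  refine ⟨ϖ, hϖ0, (ValuationSubring.mem_nonunits_iff _).2 hϖ1, hall, ?_⟩
  obtain ⟨e, he⟩ := hall (algebraMap k k' v) ((_root_.map_ne_zero _).2 hv0)
  rw [← hω] at he
  have he0 : 0 ≤ e := by
    by_contra hcon
    rw [not_le] at hcon
    obtain ⟨e', he'⟩ := Int.eq_ofNat_of_zero_le (a := -e) (by omega)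
    have h1 : ω * W.valuation (algebraMap k' C ϖ) ^ e' = 1 := by
      rw [he, ← zpow_natCast, ← he', ← zpow_add₀ hϖv0, add_neg_cancel, zpow_zero]
    have h2 : ω * W.valuation (algebraMap k' C ϖ) ^ e' < 1 :=
      mul_lt_one_of_lt_of_le hω1 (pow_le_one₀ zero_le hϖ1.le)
    exact h2.ne h1
  obtain ⟨e', rfl⟩ := Int.eq_ofNat_of_zero_le he0
  exact ⟨e', by rw [he, zpow_natCast]⟩

end Pool.Agent.TWX
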