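import Pool.Agent.Helper10.TWX.X7

/-!
# Project TWX: orbits of the decomposition group
-/

universe u

set_option linter.unusedSectionVars false

namespace Pool.Agent.TWX

open Polynomial Pool.Agent.SC Pool.Agent.Helper91.Sect Pool.Agent MulAction

section orbits

variable {k C : Type u} [Field k] [CharZero k] [Field C] [Algebra k C] [Algebra.IsAlgebraic k C]

/-- The decomposition group. -/
def decG (k : Type u) {C : Type u} [Field k] [Field C] [Algebra k C] (W : ValuationSubring C) :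
    Subgroup (C ≃ₐ[k] C) where
  carrier := {σ | InDecomp W σ}
  one_mem' := fun _ => Iff.rfl
  mul_mem' := fun {σ τ} hσ hτ z => (hσ (τ z)).trans (hτ z)
  inv_mem' := fun {σ} hσ z => by
    rw [← hσ (σ⁻¹ z)]
    have h1 : σ (σ⁻¹ z) = z := AlgEquiv.apply_symm_apply σ z
    rw [h1]

theorem mem_decG {W : ValuationSubring C} {σ : C ≃ₐ[k] C} : σ ∈ decG k W ↔ InDecomp W σ := Iff.rfl

theorem val_stab {W : ValuationSubring C} {σ : C ≃ₐ[k] C} (hσ : InDecomp W σ) (x : C) :
    W.valuation (σ x) = W.valuation x := by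
  classical
  by_cases hx : x = 0
  · rw [hx, map_zero]
  have hσx : σ x ≠ 0 := (map_ne_zero_iff σ σ.injective).2 hx
  obtain ⟨α, hα, hval⟩ := exists_pow_val W.valuation hx
    (Algebra.IsIntegral.isIntegral (R := k) x) le_rfl
  set N := (minpoly k x).natDegree.factorial
  have hN : N ≠ 0 := Nat.factorial_ne_zero _
  have hα0 : algebraMap k C α ≠ 0 := (_root_.map_ne_zero _).2 hα
  have hαv : W.valuation (algebraMap k C α) ≠ 0 := (Valuation.ne_zero_iff _).2 hα0
  have key : ∀ z : C, W.valuation z = 1 → W.valuation (σ z) = 1 := by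
    intro z hz
    have hz0 : z ≠ 0 := by
      rintro rfl
      rw [map_zero] at hz
      exact zero_ne_one hz
    have h1 : σ z ∈ W := (hσ z).2 ((W.valuation_le_one_iff z).1 hz.le)
    have h2 : σ z⁻¹ ∈ W := by
      rw [hσ]
      rw [← W.valuation_le_one_iff, map_inv₀, hz, inv_one]
    rw [← W.valuation_le_one_iff] at h1 h2
    rw [map_inv₀, map_inv₀] at h2
    have h3 : W.valuation (σ z) ≠ 0 := (Valuation.ne_zero_iff _).2
      ((map_ne_zero_iff σ σ.injective).2 hz0)
    exact le_antisymm h1 ((inv_le_one₀ (zero_lt_iff.2 h3)).1 h2)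
  have h1 : W.valuation (x ^ N / algebraMap k C α) = 1 := by
    rw [map_div₀, hval, div_self hαv]
  have h2 := key _ h1
  rw [map_div₀, AlgEquiv.commutes, map_div₀, div_eq_one_iff_eq hαv, map_pow, map_pow] at h2
  refine pow_inj_val hN ?_
  rw [h2, ← hval, map_pow]

theorem orbit_finite (H : Subgroup (C ≃ₐ[k] C)) (x : C) : (orbit H x).Finite := by
  classical
  refine Set.Finite.subset (rootSet_finite (minpoly k x) C) ?_
  rintro _ ⟨σ, rfl⟩
  rw [mem_rootSet]
  refine ⟨minpoly.ne_zero (Algebra.IsIntegral.isIntegral x), ?_⟩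
  change aeval ((σ : C ≃ₐ[k] C) x) (minpoly k x) = 0
  have h1 := aeval_algHom_apply ((σ : C ≃ₐ[k] C) : C →ₐ[k] C) x (minpoly k x)
  rw [minpoly.aeval, map_zero] at h1
  exact h1

/-- **Values and indices of stabilizers.** -/
theorem val_pow_index [IsGalois k C] [IsAlgClosed C] {F : Type u} [Field F]
    [CharZero F] [Algebra F C] {W : ValuationSubring C} (hF : ∀ c : F, algebraMap F C c ∈ W)
    {v : k} (hv : algebraMap k C v ∈ W.nonunits) (hv0 : v ≠ 0)
    (hdisc : ∀ z : k, z ≠ 0 → ∃ i : ℤ, W.valuation (algebraMap k C z) =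
      W.valuation (algebraMap k C v) ^ i) {H : Subgroup (C ≃ₐ[k] C)} (hHD : ∀ σ ∈ H, InDecomp W σ)
    (hI : ∀ σ : C ≃ₐ[k] C, InInert W σ → σ ∈ H) {x : C} (hx : x ≠ 0) :
    ∃ i : ℤ, W.valuation x ^ (stabilizer H x).index = W.valuation (algebraMap k C v) ^ i := by
  classical
  have hfin := orbit_finite H x
  set S : Finset C := hfin.toFinset with hS
  have hmemS : ∀ y, y ∈ S ↔ y ∈ orbit H x := fun y => hfin.mem_toFinset
  have hcard : (stabilizer H x).index = S.card := by
    rw [index_stabilizer, Set.ncard_eq_toFinset_card _ hfin]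
  have hne : ∀ y ∈ S, y ≠ 0 := by
    intro y hy
    rw [hmemS] at hy
    obtain ⟨σ, rfl⟩ := hy
    exact (map_ne_zero_iff (σ : C ≃ₐ[k] C) (σ : C ≃ₐ[k] C).injective).2 hx
  have hN0 : ∏ y ∈ S, y ≠ 0 := Finset.prod_ne_zero_iff.2 hne
  obtain ⟨i, hi⟩ := val_of_fixed hF hv hv0 hdisc hN0 (fun τ hτ => by
    rw [map_prod]
    have hτH := hI τ hτ
    refine Finset.prod_nbij (fun y => τ y) ?_ (τ.injective.injOn) ?_ (fun _ _ => rfl)
    · intro y hy
      rw [hmemS] at hy ⊢
      obtain ⟨σ, rfl⟩ := hy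
      exact ⟨⟨τ, hτH⟩ * σ, rfl⟩
    · intro y hy
      rw [Finset.mem_coe, hmemS] at hy
      obtain ⟨σ, rfl⟩ := hy
      refine ⟨τ⁻¹ ((σ : C ≃ₐ[k] C) x), ?_, ?_⟩
      · rw [Finset.mem_coe, hmemS]
        exact ⟨⟨τ, hτH⟩⁻¹ * σ, rfl⟩
      · exact AlgEquiv.apply_symm_apply τ _)
  refine ⟨i, ?_⟩
  rw [← hi, map_prod, hcard, Finset.prod_congr rfl (g := fun _ => W.valuation x), Finset.prod_const]
  intro y hy
  rw [hmemS] at hy
  obtain ⟨σ, rfl⟩ := hy
  exact val_stab (hHD _ σ.2) x

end orbits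

section groups

variable {G X Y : Type*} [Group G] [MulAction G X] [MulAction G Y]

theorem stabilizer_relIndex (H : Subgroup G) (x : X) :
    (stabilizer G x).relIndex H = (stabilizer H x).index := by
  have h1 : (stabilizer G x).subgroupOf H = stabilizer H x := by
    ext σ
    rfl
  rw [Subgroup.relIndex, h1]

/-- the index of a stabilizer is divisible by the index of a larger one -/
theorem index_dvd (H : Subgroup G) {x : X} {y : Y}
    (h : ∀ σ ∈ H, σ • x = x → σ • y = y) :
    (stabilizer H y).index ∣ (stabilizer H x).index := by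
  apply Subgroup.index_dvd_of_le
  intro σ hσ
  exact h σ σ.2 hσ

/-- the index of the stabilizer of a pair -/
theorem index_pair_dvd (H : Subgroup G) {x : X} {c ρ : Y}
    (h : ∀ σ ∈ H, σ • x = x → σ • c = c ∧ σ • ρ = ρ) :
    (stabilizer H c).index * (stabilizer (H ⊓ stabilizer G c : Subgroup G) ρ).index ∣
      (stabilizer H x).index := by
  rw [← stabilizer_relIndex, ← stabilizer_relIndex, ← stabilizer_relIndex]
  set E := H ⊓ stabilizer G c with hE
  set B := E ⊓ stabilizer G ρ with hB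
  have h1 : (stabilizer G c).relIndex H = E.relIndex H := by
    rw [hE, Subgroup.inf_relIndex_left]
  have h2 : (stabilizer G ρ).relIndex E = B.relIndex E := by
    rw [hB, Subgroup.inf_relIndex_left]
  have h3 : (stabilizer G x).relIndex H = (H ⊓ stabilizer G x).relIndex H := by
    rw [Subgroup.inf_relIndex_left]
  rw [h1, h2, h3]
  have h4 : H ⊓ stabilizer G x ≤ B := by
    rintro σ ⟨hσH, hσx⟩
    obtain ⟨h5, h6⟩ := h σ hσH hσx
    exact ⟨⟨hσH, h5⟩, h6⟩
  have hBE : B ≤ E := inf_le_left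
  have hEH : E ≤ H := inf_le_left
  rw [← Subgroup.relIndex_mul_relIndex _ B H h4 (hBE.trans hEH),
    ← Subgroup.relIndex_mul_relIndex B E H hBE hEH, mul_comm (E.relIndex H)]
  exact dvd_mul_left _ _

end groups

section emb

variable {k k' C : Type u} [Field k] [CharZero k] [Field k'] [Field C] [Algebra k k'] [Algebra k C]

/-- The embeddings of `k'` in `C`. -/
def Emb (k k' C : Type u) [Field k] [Field k'] [Field C] [Algebra k k'] [Algebra k C] : Type u :=
  k' →ₐ[k] C

instance : MulAction (C ≃ₐ[k] C) (Emb k k' C) where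
  smul σ τ := ((σ : C →ₐ[k] C).comp τ : k' →ₐ[k] C)
  one_smul _ := AlgHom.ext fun _ => rfl
  mul_smul _ _ _ := AlgHom.ext fun _ => rfl

theorem smul_emb (σ : C ≃ₐ[k] C) (τ : k' →ₐ[k] C) (a : k') :
    (show k' →ₐ[k] C from σ • (show Emb k k' C from τ)) a = σ (τ a) := rfl

/-- **The degree is a sum of indices.** -/
theorem finrank_mem_closure [FiniteDimensional k k'] [IsAlgClosed C] (H : Subgroup (C ≃ₐ[k] C)) {S : Set ℕ}
    (h : ∀ τ : Emb k k' C, ∃ d ∈ S, d ∣ (stabilizer H τ).index) :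
    Module.finrank k k' ∈ AddSubmonoid.closure S := by
  classical
  have hf : Fintype (Emb k k' C) := (inferInstance : Fintype (k' →ₐ[k] C))
  have hcard : Fintype.card (Emb k k' C) = Module.finrank k k' := by
    have h1 := AlgHom.card k k' C
    rw [← h1]
    exact Fintype.card_congr (Equiv.refl _)
  rw [← hcard, ← Nat.card_eq_fintype_card, Nat.card_congr (selfEquivSigmaOrbits' H (Emb k k' C)),
    Nat.card_sigma]
  refine sum_mem fun ω _ => ?_
  induction ω using Quotient.inductionOn with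
  | h τ =>
    obtain ⟨d, hd, hdvd⟩ := h τ
    rw [index_stabilizer] at hdvd
    have h2 : Nat.card (orbitRel.Quotient.orbit (Quotient.mk (orbitRel H (Emb k k' C)) τ)) =
        (orbit H τ).ncard := by
      rw [orbitRel.Quotient.orbit_mk]
      rfl
    rw [h2]
    obtain ⟨m, hm⟩ := hdvd
    rw [hm, mul_comm, ← smul_eq_mul]
    exact nsmul_mem (AddSubmonoid.subset_closure hd) m

end emb

end Pool.Agent.TWX
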