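import Pool.Agent.Helper10.TWX.X8

/-!
# Project TWX: the decomposition group acts on the branch points as the full group
-/

universe u

set_option linter.unusedSectionVars false

namespace Pool.Agent.TWX

open Polynomial IntermediateField MulAction

/-- **Fullness.** -/
theorem exists_full {k₀ : Type u} [Field k₀] [CharZero k₀] (Mq : Finset k₀[X])
    (hMq : ∀ q ∈ Mq, q ≠ 0) :
    ∃ M₁ : Finset k₀[X], (∀ q ∈ M₁, q ≠ 0) ∧
      ∀ (k C : Type u) [Field k] [Field C] [Algebra k₀ k] [Algebra k C] [Algebra k₀ C]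
        [IsScalarTower k₀ k C] [IsAlgClosed C] (D : Subgroup (C ≃ₐ[k] C)),
        (∀ q ∈ M₁, ∀ b : C, aeval b q = 0 → (∀ c : k, algebraMap k C c ≠ b) → ∃ γ ∈ D, γ b ≠ b) →
        ∀ σ : C ≃ₐ[k] C, ∃ γ ∈ D, ∀ q ∈ Mq, ∀ c : C, aeval c q = 0 → γ c = σ c := by
  classical
  set Q : k₀[X] := ∏ q ∈ Mq, q with hQ
  have hQ0 : Q ≠ 0 := Finset.prod_ne_zero_iff.2 hMq
  let N₀ : Type u := Q.SplittingField
  have hsplit : (Q.map (algebraMap k₀ N₀)).Splits := SplittingField.splits Q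
  have hnorm : Normal k₀ N₀ := Normal.of_isSplittingField Q
  have hfin : FiniteDimensional k₀ N₀ := inferInstance
  have hH : ∀ H : Subgroup (N₀ ≃ₐ[k₀] N₀), ∃ b : N₀, (∀ σ ∈ H, σ b = b) ∧
      ∀ σ : N₀ ≃ₐ[k₀] N₀, σ b = b → σ ∈ H := by
    intro H
    obtain ⟨α, hα⟩ := Field.exists_primitive_element k₀ (fixedField H)
    refine ⟨(α : N₀), fun σ hσ => (mem_fixedField_iff H _).1 α.2 σ hσ, fun σ hσ => ?_⟩
    rw [← fixingSubgroup_fixedField H, IntermediateField.mem_fixingSubgroup_iff]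
    intro x hx
    have h1 : (⟨x, hx⟩ : fixedField H) ∈ k₀⟮α⟯ := by
      rw [hα]
      trivial
    have h2 : x ∈ k₀⟮(α : N₀)⟯ := by
      have h3 : x ∈ (k₀⟮α⟯).map (fixedField H).val := ⟨_, h1, rfl⟩
      rw [adjoin_map, Set.image_singleton] at h3
      exact h3
    have h4 : k₀⟮(α : N₀)⟯ ≤ (AlgHom.equalizer (σ : N₀ →ₐ[k₀] N₀) (AlgHom.id k₀ N₀) :
        Subalgebra k₀ N₀).toIntermediateField (fun z hz => by
          change σ z⁻¹ = z⁻¹
          rw [map_inv₀]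
          exact congrArg _ hz) := by
      rw [adjoin_simple_le_iff]
      exact hσ
    exact h4 h2
  choose b hb1 hb2 using hH
  have hfinG : Finite (Subgroup (N₀ ≃ₐ[k₀] N₀)) := inferInstance
  have hft : Fintype (Subgroup (N₀ ≃ₐ[k₀] N₀)) := Fintype.ofFinite _
  refine ⟨Finset.univ.image fun H => minpoly k₀ (b H), ?_, ?_⟩
  · intro q hq
    obtain ⟨H, -, rfl⟩ := Finset.mem_image.1 hq
    exact minpoly.ne_zero (Algebra.IsIntegral.isIntegral _)
  intro k C _ _ _ _ _ _ _ D hmove σ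
  let φ : N₀ →ₐ[k₀] C := IsAlgClosed.lift
  let iN : Algebra N₀ C := φ.toRingHom.toAlgebra
  have sN : IsScalarTower k₀ N₀ C := IsScalarTower.of_algebraMap_eq fun z => (φ.commutes z).symm
  let R : (C ≃ₐ[k] C) →* (N₀ ≃ₐ[k₀] N₀) :=
    (AlgEquiv.restrictNormalHom N₀).comp (AlgEquiv.restrictScalarsHom k₀)
  have hR : ∀ (γ : C ≃ₐ[k] C) (z : N₀), φ (R γ z) = γ (φ z) := fun γ z =>
    AlgEquiv.restrictNormal_commutes (AlgEquiv.restrictScalarsHom k₀ γ) N₀ z
  let H : Subgroup (N₀ ≃ₐ[k₀] N₀) := D.map R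
  have h1 : ∀ γ ∈ D, γ (φ (b H)) = φ (b H) := by
    intro γ hγ
    rw [← hR, hb1 H (R γ) ⟨γ, hγ, rfl⟩]
  have h2 : ∃ c : k, algebraMap k C c = φ (b H) := by
    by_contra hcon
    push Not at hcon
    obtain ⟨γ, hγ, hne⟩ := hmove (minpoly k₀ (b H))
      (Finset.mem_image_of_mem _ (Finset.mem_univ H)) (φ (b H)) (by
        rw [aeval_algHom_apply, minpoly.aeval, map_zero]) hcon
    exact hne (h1 γ hγ)
  obtain ⟨c, hc⟩ := h2
  have h3 : R σ (b H) = b H := by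
    have h4 : φ (R σ (b H)) = φ (b H) := by rw [hR, ← hc, AlgEquiv.commutes]
    exact φ.injective h4
  obtain ⟨γ, hγ, hγσ⟩ := hb2 H (R σ) h3
  refine ⟨γ, hγ, fun q hq c hcq => ?_⟩
  have h4 : c ∈ Q.rootSet C := by
    rw [mem_rootSet]
    refine ⟨hQ0, ?_⟩
    rw [hQ, map_prod]
    exact Finset.prod_eq_zero hq hcq
  rw [← hsplit.image_rootSet φ] at h4
  obtain ⟨z, -, rfl⟩ := h4
  change γ (φ z) = σ (φ z)
  rw [← hR, ← hR, hγσ]

/-- the index of the stabilizer of a branch point -/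
theorem index_stabilizer_root {k C : Type u} [Field k] [CharZero k] [Field C] [Algebra k C]
    [IsAlgClosed C] [Algebra.IsAlgebraic k C] {D : Subgroup (C ≃ₐ[k] C)} {r : k[X]}
    (hr : Irreducible r) {c : C} (hc : aeval c r = 0)
    (hfull : ∀ σ : C ≃ₐ[k] C, ∃ γ ∈ D, γ c = σ c) : (stabilizer D c).index = r.natDegree := by
  classical
  have hclo : IsAlgClosure k C := ⟨inferInstance, inferInstance⟩
  have hnor : Normal k C := IsAlgClosure.normal k C
  rw [index_stabilizer, ← card_rootSet_eq_natDegree (K := C) hr.separable (IsAlgClosed.splits _),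
    ← Nat.card_eq_fintype_card, Nat.card_coe_set_eq]
  congr 1
  ext c'
  rw [mem_rootSet]
  constructor
  · rintro ⟨γ, rfl⟩
    refine ⟨hr.ne_zero, ?_⟩
    have h1 := aeval_algHom_apply ((γ : C ≃ₐ[k] C) : C →ₐ[k] C) c r
    rw [hc, map_zero] at h1
    exact h1
  · rintro ⟨-, hc'⟩
    have h1 : minpoly k c = minpoly k c' := by
      rw [← minpoly.eq_of_irreducible hr hc, ← minpoly.eq_of_irreducible hr hc']
    obtain ⟨σ, hσ⟩ := minpoly.exists_algEquiv_of_root' (K := k) (x := c') (y := c)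
      (Algebra.IsAlgebraic.isAlgebraic c) (by rw [h1, minpoly.aeval])
    obtain ⟨γ, hγ, h2⟩ := hfull σ
    exact ⟨⟨γ, hγ⟩, by rw [← hσ, ← h2]; rfl⟩

end Pool.Agent.TWX
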